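import Mathlib

/-!
# Sublattices of free lattices: definitions

The free lattice on a set is described by its universal property. `Whitman` is the condition (W),
and `FinRank` says that a filter of a lattice has finite rank.
-/

namespace Pool.Agent.H41.FL

universe u

/-- `F`, with the map `i : X → F`, is a free lattice on the set `X`: every map from `X` into a
lattice extends uniquely to a lattice homomorphism. -/
def IsFree {X F : Type u} [Lattice F] (i : X → F) : Prop :=
  ∀ (M : Type u) [Lattice M] (f : X → M), ∃! h : LatticeHom F M, ∀ x, h (i x) = f x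

/-- The lattice `L` embeds into a free lattice. -/
def EmbedsInFree (L : Type u) [Lattice L] : Prop :=
  ∃ (X F : Type u) (_ : Lattice F) (i : X → F), IsFree i ∧
    ∃ g : LatticeHom L F, Function.Injective g

/-- Whitman's condition (W). -/
def Whitman (L : Type u) [Lattice L] : Prop :=
  ∀ a b c d : L, a ⊓ b ≤ c ⊔ d → a ≤ c ⊔ d ∨ b ≤ c ⊔ d ∨ a ⊓ b ≤ c ∨ a ⊓ b ≤ d

/-- A filter of a lattice: a nonempty up-closed set closed under binary meets. -/
structure IsFilt {L : Type u} [Lattice L] (F : Set L) : Prop where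
  nonempty : F.Nonempty
  up : ∀ a b, a ∈ F → a ≤ b → b ∈ F
  inf : ∀ a b, a ∈ F → b ∈ F → a ⊓ b ∈ F

/-- Filters of finite rank, defined inductively. A filter `F` has finite rank if there is a finite
set `𝒞` of nonempty finite sets of filters of finite rank such that
* for `𝒢 ∈ 𝒞`, every element that belongs to all members of `𝒢` belongs to `F`, and
* for every nonempty finite set `A ⊆ L` whose join belongs to `F`, either `A` meets `F`, or `A`
  meets all members of some `𝒢 ∈ 𝒞`. -/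
inductive FinRank {L : Type u} [Lattice L] : Set L → Prop
  | mk (F : Set L) (𝒞 : Set (Set (Set L))) (hF : IsFilt F) (fin : 𝒞.Finite)
      (fin' : ∀ 𝒢 ∈ 𝒞, 𝒢.Finite) (ne : ∀ 𝒢 ∈ 𝒞, 𝒢.Nonempty)
      (rank : ∀ 𝒢 ∈ 𝒞, ∀ G ∈ 𝒢, FinRank G)
      (cover : ∀ 𝒢 ∈ 𝒞, ∀ b, (∀ G ∈ 𝒢, b ∈ G) → b ∈ F)
      (refine : ∀ (A : Finset L) (hA : A.Nonempty), A.sup' hA id ∈ F →
        (∃ a ∈ A, a ∈ F) ∨ ∃ 𝒢 ∈ 𝒞, ∀ G ∈ 𝒢, ∃ a ∈ A, a ∈ G) : FinRank F

end Pool.Agent.H41.FL
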