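import Mathlib
import Pool.Agent.H41.FL.Defs

/-!
# Systems of covers of filters and ideals
-/

namespace Pool.Agent.H41.FL

universe u

variable {L : Type u} [Lattice L]

/-- Finite rank at most `n`. -/
def FR : ℕ → Set L → Prop
  | 0, _ => False
  | n + 1, F => IsFilt F ∧ ∃ 𝒞 : Finset (Finset (Set L)),
      (∀ 𝒢 ∈ 𝒞, 𝒢.Nonempty) ∧ (∀ 𝒢 ∈ 𝒞, ∀ G ∈ 𝒢, FR n G) ∧
      (∀ 𝒢 ∈ 𝒞, ∀ b, (∀ G ∈ 𝒢, b ∈ G) → b ∈ F) ∧
      ∀ (A : Finset L) (hA : A.Nonempty), A.sup' hA id ∈ F →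
        (∃ a ∈ A, a ∈ F) ∨ ∃ 𝒢 ∈ 𝒞, ∀ G ∈ 𝒢, ∃ a ∈ A, a ∈ G

theorem FR.succ {n : ℕ} {F : Set L} (h : FR n F) : FR (n + 1) F := by
  induction n generalizing F with
  | zero => exact absurd h id
  | succ n ih =>
    obtain ⟨h0, 𝒞, h1, h2, h3, h4⟩ := h
    exact ⟨h0, 𝒞, h1, fun 𝒢 h𝒢 G hG => ih (h2 𝒢 h𝒢 G hG), h3, h4⟩

theorem FR.mono {n m : ℕ} (hnm : n ≤ m) {F : Set L} (h : FR n F) : FR m F := by
  induction hnm with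
  | refl => exact h
  | step _ ih => exact ih.succ

theorem FinRank.exists_fr {F : Set L} (h : FinRank F) : ∃ n, FR n F := by
  classical
  induction h with
  | mk F 𝒞 hF fin fin' ne rank cover refine ih =>
    have hfin : (⋃₀ 𝒞).Finite := fin.sUnion fin'
    have : ∀ G : Set L, ∃ n, G ∈ ⋃₀ 𝒞 → FR n G := by
      intro G
      by_cases hG : G ∈ ⋃₀ 𝒞
      · obtain ⟨𝒢, h𝒢, hG⟩ := hG
        obtain ⟨n, hn⟩ := ih 𝒢 h𝒢 G hG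
        exact ⟨n, fun _ => hn⟩
      · exact ⟨0, fun h => absurd h hG⟩
    choose n hn using this
    obtain ⟨N, hN⟩ := (hfin.image n).bddAbove
    refine ⟨N + 1, hF, fin.toFinset.image (fun 𝒢 => if h : 𝒢.Finite then h.toFinset else ∅),
      ?_, ?_, ?_, ?_⟩
    · intro 𝒢 h𝒢
      obtain ⟨𝒢', h𝒢', rfl⟩ := Finset.mem_image.1 h𝒢
      rw [Set.Finite.mem_toFinset] at h𝒢'
      rw [dif_pos (fin' _ h𝒢')]
      exact (Set.Finite.toFinset_nonempty _).2 (ne _ h𝒢')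
    · intro 𝒢 h𝒢 G hG
      obtain ⟨𝒢', h𝒢', rfl⟩ := Finset.mem_image.1 h𝒢
      rw [Set.Finite.mem_toFinset] at h𝒢'
      rw [dif_pos (fin' _ h𝒢'), Set.Finite.mem_toFinset] at hG
      have hm : G ∈ ⋃₀ 𝒞 := ⟨𝒢', h𝒢', hG⟩
      exact (hn G hm).mono (hN ⟨G, hm, rfl⟩)
    · intro 𝒢 h𝒢 b hb
      obtain ⟨𝒢', h𝒢', rfl⟩ := Finset.mem_image.1 h𝒢
      rw [Set.Finite.mem_toFinset] at h𝒢'
      rw [dif_pos (fin' _ h𝒢')] at hb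
      exact cover 𝒢' h𝒢' b fun G hG => hb G ((Set.Finite.mem_toFinset _).2 hG)
    · intro A hA H
      rcases refine A hA H with h | ⟨𝒢', h𝒢', H⟩
      · exact Or.inl h
      · refine Or.inr ⟨(fin' _ h𝒢').toFinset, ?_, ?_⟩
        · exact Finset.mem_image.2 ⟨𝒢', (Set.Finite.mem_toFinset _).2 h𝒢', by
            rw [dif_pos (fin' _ h𝒢')]⟩
        · intro G hG
          exact H G ((Set.Finite.mem_toFinset _).1 hG)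

/-- A set of subsets of a lattice of which each is a filter, with finite systems of covers. -/
structure FSys (L : Type u) [Lattice L] where
  cov : Set L → Finset (Finset (Set L))
  rk : Set L → ℕ
  W : L → Finset (Set L)
  mem : ∀ a, Set.Ici a ∈ W a
  filt : ∀ {a G}, G ∈ W a → IsFilt G
  sub : ∀ {a G}, G ∈ W a → ∀ {𝒢}, 𝒢 ∈ cov G → 𝒢 ⊆ W a
  ne : ∀ {a G}, G ∈ W a → ∀ {𝒢}, 𝒢 ∈ cov G → 𝒢.Nonempty
  rk_lt : ∀ {a G}, G ∈ W a → ∀ {𝒢}, 𝒢 ∈ cov G → ∀ {G'}, G' ∈ 𝒢 → rk G' < rk G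
  cover : ∀ {a G}, G ∈ W a → ∀ {𝒢}, 𝒢 ∈ cov G → ∀ b, (∀ G' ∈ 𝒢, b ∈ G') → b ∈ G
  virt : ∀ {a G}, G ∈ W a → ∀ 𝒢 : Finset (Set L), 𝒢.Nonempty → (∀ G' ∈ 𝒢, IsFilt G') →
    (∀ b, (∀ G' ∈ 𝒢, b ∈ G') → b ∈ G) →
    (∃ G' ∈ 𝒢, G' ⊆ G) ∨ ∃ 𝒢' ∈ cov G, ∀ H ∈ 𝒢', ∃ G' ∈ 𝒢, G' ⊆ H

theorem avoid {G : Set L} (hG : IsFilt G) (T : Finset (Set L)) (hT : ∀ t ∈ T, IsFilt t)
    (h : ∀ t ∈ T, ¬ G ⊆ t) : ∃ y ∈ G, ∀ t ∈ T, y ∉ t := by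
  classical
  induction T using Finset.induction_on with
  | empty =>
    obtain ⟨y, hy⟩ := hG.nonempty
    exact ⟨y, hy, by simp⟩
  | insert t T _ ih =>
    obtain ⟨y, hy, hyT⟩ := ih (fun t ht => hT t (by simp [ht])) (fun t ht => h t (by simp [ht]))
    obtain ⟨z, hz, hzt⟩ := Set.not_subset.1 (h t (by simp))
    refine ⟨y ⊓ z, hG.inf _ _ hy hz, ?_⟩
    intro s hs hm
    rcases Finset.mem_insert.1 hs with rfl | hs'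
    · exact hzt ((hT s hs).up _ _ hm inf_le_right)
    · exact hyT s hs' ((hT s hs).up _ _ hm inf_le_left)

theorem exists_fsys (h : ∀ a : L, FinRank (Set.Ici a)) : Nonempty (FSys L) := by
  classical
  -- rank
  let rk : Set L → ℕ := fun F => sInf {n | FR n F}
  have hrk : ∀ {F n}, FR n F → FR (rk F) F ∧ rk F ≤ n := fun {F n} hF =>
    ⟨Nat.sInf_mem (s := {n | FR n F}) ⟨n, hF⟩, Nat.sInf_le hF⟩
  have hcov : ∀ F : Set L, ∃ C : Finset (Finset (Set L)), (∃ n, FR n F) →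
      (∀ 𝒢 ∈ C, 𝒢.Nonempty) ∧ (∀ 𝒢 ∈ C, ∀ G ∈ 𝒢, (∃ n, FR n G) ∧ rk G < rk F) ∧
      (∀ 𝒢 ∈ C, ∀ b, (∀ G ∈ 𝒢, b ∈ G) → b ∈ F) ∧
      ∀ (A : Finset L) (hA : A.Nonempty), A.sup' hA id ∈ F →
        (∃ a ∈ A, a ∈ F) ∨ ∃ 𝒢 ∈ C, ∀ G ∈ 𝒢, ∃ a ∈ A, a ∈ G := by
    intro F
    by_cases hF : ∃ n, FR n F
    · obtain ⟨n, hn⟩ := hF
      have h1 := (hrk hn).1
      generalize hm : rk F = m at h1
      cases m with
      | zero => exact absurd h1 id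
      | succ m =>
        obtain ⟨_, C, h2, h3, h4, h5⟩ := h1
        refine ⟨C, fun _ => ⟨h2, fun 𝒢 h𝒢 G hG => ⟨⟨m, h3 𝒢 h𝒢 G hG⟩, ?_⟩, h4, h5⟩⟩
        have := (hrk (h3 𝒢 h𝒢 G hG)).2
        omega
    · exact ⟨∅, fun h => absurd h hF⟩
  choose cov hcov using hcov
  have hfilt : ∀ {F : Set L}, (∃ n, FR n F) → IsFilt F := by
    rintro F ⟨n, hn⟩
    cases n with
    | zero => exact absurd hn id
    | succ n => exact hn.1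
  -- hereditary closures
  have hW : ∀ (m : ℕ) (F : Set L), rk F ≤ m → (∃ n, FR n F) → ∃ W : Finset (Set L),
      F ∈ W ∧ (∀ G ∈ W, ∃ n, FR n G) ∧ ∀ G ∈ W, ∀ 𝒢 ∈ cov G, 𝒢 ⊆ W := by
    intro m
    induction m using Nat.strong_induction_on with
    | _ m ih =>
    intro F hm hF
    have h2 := (hcov F hF).2.1
    have : ∀ G : Set L, ∃ W : Finset (Set L), (∃ 𝒢 ∈ cov F, G ∈ 𝒢) →
        G ∈ W ∧ (∀ G ∈ W, ∃ n, FR n G) ∧ ∀ G ∈ W, ∀ 𝒢 ∈ cov G, 𝒢 ⊆ W := by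
      intro G
      by_cases hG : ∃ 𝒢 ∈ cov F, G ∈ 𝒢
      · obtain ⟨𝒢, h𝒢, hG⟩ := hG
        obtain ⟨h3, h4⟩ := h2 𝒢 h𝒢 G hG
        obtain ⟨W, hW⟩ := ih (rk G) (by omega) G le_rfl h3
        exact ⟨W, fun _ => hW⟩
      · exact ⟨∅, fun h => absurd h hG⟩
    choose w hw using this
    refine ⟨insert F ((cov F).biUnion fun 𝒢 => 𝒢.biUnion w), Finset.mem_insert_self _ _, ?_, ?_⟩
    · intro G hG
      rcases Finset.mem_insert.1 hG with rfl | hG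
      · exact hF
      · simp only [Finset.mem_biUnion] at hG
        obtain ⟨𝒢, h𝒢, G', hG', hG⟩ := hG
        exact (hw G' ⟨𝒢, h𝒢, hG'⟩).2.1 G hG
    · intro G hG 𝒢 h𝒢 G' hG'
      refine Finset.mem_insert_of_mem ?_
      rcases Finset.mem_insert.1 hG with rfl | hG
      · simp only [Finset.mem_biUnion]
        exact ⟨𝒢, h𝒢, G', hG', (hw G' ⟨𝒢, h𝒢, hG'⟩).1⟩
      · simp only [Finset.mem_biUnion] at hG ⊢
        obtain ⟨𝒢₁, h𝒢₁, G₁, hG₁, hG⟩ := hG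
        exact ⟨𝒢₁, h𝒢₁, G₁, hG₁, (hw G₁ ⟨𝒢₁, h𝒢₁, hG₁⟩).2.2 G hG 𝒢 h𝒢 hG'⟩
  have hW' : ∀ a : L, ∃ W : Finset (Set L), Set.Ici a ∈ W ∧ (∀ G ∈ W, ∃ n, FR n G) ∧
      ∀ G ∈ W, ∀ 𝒢 ∈ cov G, 𝒢 ⊆ W := fun a => hW _ _ le_rfl (h a).exists_fr
  choose W hW1 hW2 hW3 using hW'
  refine ⟨⟨cov, rk, W, hW1, fun {a G} hG => hfilt (hW2 a G hG),
    fun {a G} hG {𝒢} h𝒢 => hW3 a G hG 𝒢 h𝒢,
    fun {a G} hG {𝒢} h𝒢 => (hcov G (hW2 a G hG)).1 𝒢 h𝒢,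
    fun {a G} hG {𝒢} h𝒢 {G'} hG' => ((hcov G (hW2 a G hG)).2.1 𝒢 h𝒢 G' hG').2,
    fun {a G} hG {𝒢} h𝒢 => (hcov G (hW2 a G hG)).2.2.1 𝒢 h𝒢, ?_⟩⟩
  intro a G hG 𝒢 hne hf hcv
  have : Nonempty L := ⟨a⟩
  by_contra hcon
  push Not at hcon
  obtain ⟨c1, c2⟩ := hcon
  choose! t ht1 ht2 using c2
  have hGf : IsFilt G := hfilt (hW2 a G hG)
  have key : ∀ G' ∈ 𝒢, ∃ y ∈ G', ∀ s ∈ insert G ((cov G).image t), y ∉ s := by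
    intro G' hG'
    refine avoid (hf G' hG') _ ?_ ?_
    · intro s hs
      rcases Finset.mem_insert.1 hs with rfl | hs
      · exact hGf
      · obtain ⟨𝒢', h𝒢', rfl⟩ := Finset.mem_image.1 hs
        exact hfilt (hW2 a _ (hW3 a G hG 𝒢' h𝒢' (ht1 𝒢' h𝒢')))
    · intro s hs
      rcases Finset.mem_insert.1 hs with rfl | hs
      · exact c1 G' hG'
      · obtain ⟨𝒢', h𝒢', rfl⟩ := Finset.mem_image.1 hs
        exact ht2 𝒢' h𝒢' G' hG'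
  choose! y hy1 hy2 using key
  have hA : (𝒢.image y).Nonempty := hne.image y
  have hmem : (𝒢.image y).sup' hA id ∈ G := by
    refine hcv _ fun G' hG' => ?_
    exact (hf G' hG').up _ _ (hy1 G' hG')
      (Finset.le_sup' (f := id) (Finset.mem_image_of_mem y hG'))
  rcases (hcov G (hW2 a G hG)).2.2.2 _ hA hmem with ⟨b, hb, hbG⟩ | ⟨𝒢', h𝒢', H⟩
  · obtain ⟨G', hG', rfl⟩ := Finset.mem_image.1 hb
    exact hy2 G' hG' G (Finset.mem_insert_self _ _) hbG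
  · obtain ⟨b, hb, hbG⟩ := H (t 𝒢') (ht1 𝒢' h𝒢')
    obtain ⟨G', hG', rfl⟩ := Finset.mem_image.1 hb
    exact hy2 G' hG' (t 𝒢') (Finset.mem_insert_of_mem (Finset.mem_image_of_mem t h𝒢')) hbG

end Pool.Agent.H41.FL
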