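import Mathlib
import Pool.Agent.H41.FL.Cov

/-!
# Ideals, nodes and the order on them
-/

namespace Pool.Agent.H41.FL

universe u

variable {L : Type u} [Lattice L]

/-- Ideals. -/
structure IsIdl (J : Set L) : Prop where
  nonempty : J.Nonempty
  dn : ∀ a b, a ∈ J → b ≤ a → b ∈ J
  sup : ∀ a b, a ∈ J → b ∈ J → a ⊔ b ∈ J

/-- A set of ideals with finite systems of (meet) covers. -/
structure ISys (L : Type u) [Lattice L] where
  cov : Set L → Finset (Finset (Set L))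
  rk : Set L → ℕ
  W : L → Finset (Set L)
  mem : ∀ a, Set.Iic a ∈ W a
  idl : ∀ {a G}, G ∈ W a → IsIdl G
  sub : ∀ {a G}, G ∈ W a → ∀ {𝒢}, 𝒢 ∈ cov G → 𝒢 ⊆ W a
  ne : ∀ {a G}, G ∈ W a → ∀ {𝒢}, 𝒢 ∈ cov G → 𝒢.Nonempty
  rk_lt : ∀ {a G}, G ∈ W a → ∀ {𝒢}, 𝒢 ∈ cov G → ∀ {G'}, G' ∈ 𝒢 → rk G' < rk G
  cover : ∀ {a G}, G ∈ W a → ∀ {𝒢}, 𝒢 ∈ cov G → ∀ b, (∀ G' ∈ 𝒢, b ∈ G') → b ∈ G
  virt : ∀ {a G}, G ∈ W a → ∀ 𝒢 : Finset (Set L), 𝒢.Nonempty → (∀ G' ∈ 𝒢, IsIdl G') →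
    (∀ b, (∀ G' ∈ 𝒢, b ∈ G') → b ∈ G) →
    (∃ G' ∈ 𝒢, G' ⊆ G) ∨ ∃ 𝒢' ∈ cov G, ∀ H ∈ 𝒢', ∃ G' ∈ 𝒢, G' ⊆ H

theorem isIdl_of_isFilt {J : Set L} (h : IsFilt (L := Lᵒᵈ) J) : IsIdl J :=
  ⟨h.nonempty, fun a b ha hb => h.up a b ha hb, fun a b ha hb => h.inf a b ha hb⟩

theorem isFilt_of_isIdl {J : Set L} (h : IsIdl J) : IsFilt (L := Lᵒᵈ) J :=
  ⟨h.nonempty, fun a b ha hb => h.dn a b ha hb, fun a b ha hb => h.sup a b ha hb⟩

/-- Dualizing. -/
def ISys.ofDual (K : FSys Lᵒᵈ) : ISys L where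
  cov := K.cov
  rk := K.rk
  W := K.W
  mem := K.mem
  idl h := isIdl_of_isFilt (L := L) (K.filt h)
  sub h := K.sub h
  ne h := K.ne h
  rk_lt h := K.rk_lt h
  cover h := K.cover h
  virt h 𝒢 h1 h2 h3 := K.virt h 𝒢 h1 (fun G' hG' => isFilt_of_isIdl (L := L) (h2 G' hG')) h3

/-- The nodes: the elements of `L`, and for every `a` copies of the filters and the ideals that
belong to `a`. -/
inductive Nd (K : FSys L) (I : ISys L) (e : L → ℕ) : Type u
  | el (a : L)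
  | fl (a : L) (G : Set L) (h : G ∈ K.W a)
  | il (a : L) (J : Set L) (h : J ∈ I.W a)

namespace Nd

variable {K : FSys L} {I : ISys L} {e : L → ℕ}

/-- The label of a node. -/
def lab : Nd K I e → L
  | el a => a
  | fl a _ _ => a
  | il a _ _ => a

/-- The elements above a node. -/
def Up : Nd K I e → Set L
  | el a => {b | a ≤ b}
  | fl _ G _ => G
  | il a J _ => {b | ∃ c, e c ≤ e a ∧ (∀ j ∈ J, j ≤ c) ∧ c ≤ b}

/-- The elements below a node. -/
def Dn : Nd K I e → Set L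
  | el a => {b | b ≤ a}
  | fl a G _ => {b | ∃ c, e c ≤ e a ∧ (∀ g ∈ G, c ≤ g) ∧ b ≤ c}
  | il _ J _ => J

/-- The direct relation. -/
def Dir : Nd K I e → Nd K I e → Prop
  | fl a G _, fl b G' _ => e a ≤ e b ∧ G' ⊆ G
  | il a J _, il b J' _ => e b ≤ e a ∧ J ⊆ J'
  | _, _ => False

theorem Up.up {x : Nd K I e} {b c : L} (hb : b ∈ x.Up) (h : b ≤ c) : c ∈ x.Up := by
  cases x with
  | el a => exact le_trans (show a ≤ b from hb) h
  | fl a G hG => exact (K.filt hG).up _ _ hb h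
  | il a J hJ =>
    obtain ⟨d, h1, h2, h3⟩ := hb
    exact ⟨d, h1, h2, h3.trans h⟩

theorem Dn.dn {x : Nd K I e} {b c : L} (hb : b ∈ x.Dn) (h : c ≤ b) : c ∈ x.Dn := by
  cases x with
  | el a => exact le_trans h (show b ≤ a from hb)
  | il a J hJ => exact (I.idl hJ).dn _ _ hb h
  | fl a G hG =>
    obtain ⟨d, h1, h2, h3⟩ := hb
    exact ⟨d, h1, h2, h.trans h3⟩

theorem dn_le_up {x : Nd K I e} {b c : L} (hb : b ∈ x.Dn) (hc : c ∈ x.Up) : b ≤ c := by
  cases x with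
  | el a => exact le_trans (show b ≤ a from hb) hc
  | fl a G hG =>
    obtain ⟨d, h1, h2, h3⟩ := hb
    exact h3.trans (h2 c hc)
  | il a J hJ =>
    obtain ⟨d, h1, h2, h3⟩ := hc
    exact (h2 b hb).trans h3

theorem Dir.up {x y : Nd K I e} (h : Dir x y) : y.Up ⊆ x.Up := by
  cases x <;> cases y <;> first | exact absurd h id | skip
  · exact h.2
  · rintro b ⟨c, h1, h2, h3⟩
    exact ⟨c, h1.trans h.1, fun j hj => h2 j (h.2 hj), h3⟩

theorem Dir.dn {x y : Nd K I e} (h : Dir x y) : x.Dn ⊆ y.Dn := by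
  cases x <;> cases y <;> first | exact absurd h id | skip
  · rintro b ⟨c, h1, h2, h3⟩
    exact ⟨c, h1.trans h.1, fun j hj => h2 j (h.2 hj), h3⟩
  · exact h.2

theorem Dir.trans {x y z : Nd K I e} (h : Dir x y) (h' : Dir y z) : Dir x z := by
  cases x <;> cases y <;> first | exact absurd h id | skip
  · cases z <;> first | exact absurd h' id | skip
    exact ⟨h.1.trans h'.1, h'.2.trans h.2⟩
  · cases z <;> first | exact absurd h' id | skip
    exact ⟨h'.1.trans h.1, h.2.trans h'.2⟩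

instance : Preorder (Nd K I e) where
  le x y := Dir x y ∨ ∃ c, c ∈ x.Up ∧ c ∈ y.Dn
  le_refl x := by
    cases x with
    | el a => exact Or.inr ⟨a, le_refl a, le_refl a⟩
    | fl a G h => exact Or.inl ⟨le_rfl, subset_rfl⟩
    | il a J h => exact Or.inl ⟨le_rfl, subset_rfl⟩
  le_trans x y z h h' := by
    rcases h with h | ⟨c, hc, hc'⟩ <;> rcases h' with h' | ⟨d, hd, hd'⟩
    · exact Or.inl (h.trans h')
    · exact Or.inr ⟨d, h.up hd, hd'⟩
    · exact Or.inr ⟨c, hc, h'.dn hc'⟩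
    · exact Or.inr ⟨d, Up.up hc (dn_le_up hc' hd), hd'⟩

theorem le_def {x y : Nd K I e} : x ≤ y ↔ Dir x y ∨ ∃ c, c ∈ x.Up ∧ c ∈ y.Dn := Iff.rfl

theorem el_le_el {a b : L} : (el a : Nd K I e) ≤ el b ↔ a ≤ b := by
  rw [le_def]
  constructor
  · rintro (h | ⟨c, h1, h2⟩)
    · exact absurd h id
    · exact le_trans (show a ≤ c from h1) h2
  · intro h
    exact Or.inr ⟨b, h, le_refl b⟩

theorem fl_le_el {a b : L} {G : Set L} {h : G ∈ K.W a} :
    (fl a G h : Nd K I e) ≤ el b ↔ b ∈ G := by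
  rw [le_def]
  constructor
  · rintro (h' | ⟨c, h1, h2⟩)
    · exact absurd h' id
    · exact (K.filt h).up _ _ h1 h2
  · intro h
    exact Or.inr ⟨b, h, le_refl b⟩

theorem el_le_il {a b : L} {J : Set L} {h : J ∈ I.W a} :
    (el b : Nd K I e) ≤ il a J h ↔ b ∈ J := by
  rw [le_def]
  constructor
  · rintro (h' | ⟨c, h1, h2⟩)
    · exact absurd h' id
    · exact (I.idl h).dn _ _ h2 h1
  · intro h
    exact Or.inr ⟨b, le_refl b, h⟩

open Classical in
/-- The copy of a filter with a given label. -/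
noncomputable def mkF (a : L) (G : Set L) : Nd K I e := if h : G ∈ K.W a then fl a G h else el a

open Classical in
/-- The copy of an ideal with a given label. -/
noncomputable def mkI (a : L) (J : Set L) : Nd K I e := if h : J ∈ I.W a then il a J h else el a

theorem mkF_eq {a : L} {G : Set L} (h : G ∈ K.W a) : (mkF a G : Nd K I e) = fl a G h := by
  rw [mkF, dif_pos h]

theorem mkI_eq {a : L} {J : Set L} (h : J ∈ I.W a) : (mkI a J : Nd K I e) = il a J h := by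
  rw [mkI, dif_pos h]

open Classical in
/-- The join covers of a node, as sets of filters. -/
noncomputable def cv : Nd K I e → Finset (Finset (Set L))
  | el a => K.cov (Set.Ici a)
  | fl _ G _ => K.cov G
  | il a J _ => (K.W a).powerset.filter fun 𝒢 => 𝒢.Nonempty ∧
      ∀ b, (∀ G ∈ 𝒢, b ∈ G) → ∀ j ∈ J, j ≤ b

open Classical in
/-- The meet covers of a node, as sets of ideals. -/
noncomputable def cvd : Nd K I e → Finset (Finset (Set L))
  | el a => I.cov (Set.Iic a)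
  | il _ J _ => I.cov J
  | fl a G _ => (I.W a).powerset.filter fun 𝒥 => 𝒥.Nonempty ∧
      ∀ b, (∀ J ∈ 𝒥, b ∈ J) → ∀ g ∈ G, b ≤ g

theorem cv_sub {x : Nd K I e} {𝒢 : Finset (Set L)} (h : 𝒢 ∈ x.cv) : 𝒢 ⊆ K.W x.lab := by
  cases x with
  | el a => exact K.sub (K.mem a) h
  | fl a G hG => exact K.sub hG h
  | il a J hJ =>
    classical
    exact Finset.mem_powerset.1 (Finset.mem_filter.1 h).1

theorem cv_ne {x : Nd K I e} {𝒢 : Finset (Set L)} (h : 𝒢 ∈ x.cv) : 𝒢.Nonempty := by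
  cases x with
  | el a => exact K.ne (K.mem a) h
  | fl a G hG => exact K.ne hG h
  | il a J hJ =>
    classical
    exact (Finset.mem_filter.1 h).2.1

theorem cvd_sub {x : Nd K I e} {𝒥 : Finset (Set L)} (h : 𝒥 ∈ x.cvd) : 𝒥 ⊆ I.W x.lab := by
  cases x with
  | el a => exact I.sub (I.mem a) h
  | il a G hG => exact I.sub hG h
  | fl a J hJ =>
    classical
    exact Finset.mem_powerset.1 (Finset.mem_filter.1 h).1

theorem cvd_ne {x : Nd K I e} {𝒥 : Finset (Set L)} (h : 𝒥 ∈ x.cvd) : 𝒥.Nonempty := by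
  cases x with
  | el a => exact I.ne (I.mem a) h
  | il a G hG => exact I.ne hG h
  | fl a J hJ =>
    classical
    exact (Finset.mem_filter.1 h).2.1

/-- Everything below `x` is below all elements of the intersection of a join cover. -/
theorem cv_spec {x : Nd K I e} {𝒢 : Finset (Set L)} (h : 𝒢 ∈ x.cv) {b c : L}
    (hb : ∀ G ∈ 𝒢, b ∈ G) (hc : c ∈ x.Dn) : c ≤ b := by
  cases x with
  | el a =>
    have h1 : b ∈ Set.Ici a := K.cover (K.mem a) h b hb
    exact le_trans (show c ≤ a from hc) h1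
  | fl a G hG =>
    obtain ⟨d, _, h2, h3⟩ := hc
    exact h3.trans (h2 b (K.cover hG h b hb))
  | il a J hJ =>
    classical
    exact (Finset.mem_filter.1 h).2.2 b hb c hc

theorem cvd_spec {x : Nd K I e} {𝒥 : Finset (Set L)} (h : 𝒥 ∈ x.cvd) {b c : L}
    (hb : ∀ J ∈ 𝒥, b ∈ J) (hc : c ∈ x.Up) : b ≤ c := by
  cases x with
  | el a =>
    have h1 : b ∈ Set.Iic a := I.cover (I.mem a) h b hb
    exact le_trans h1 (show a ≤ c from hc)
  | il a G hG =>
    obtain ⟨d, _, h2, h3⟩ := hc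
    exact (h2 b (I.cover hG h b hb)).trans h3
  | fl a J hJ =>
    classical
    exact (Finset.mem_filter.1 h).2.2 b hb c hc

end Nd

end Pool.Agent.H41.FL
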