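import Mathlib
import Pool.Agent.H41.FL.Nodes

/-!
# The properties of the covers of the nodes
-/

namespace Pool.Agent.H41.FL

universe u

variable {L : Type u} [Lattice L]

theorem isFilt_Ici (a : L) : IsFilt (Set.Ici a) :=
  ⟨⟨a, le_refl a⟩, fun _ _ h h' => le_trans h h', fun _ _ h h' => le_inf h h'⟩

theorem isIdl_Iic (a : L) : IsIdl (Set.Iic a) :=
  ⟨⟨a, le_refl a⟩, fun _ _ h h' => le_trans h' h, fun _ _ h h' => sup_le h h'⟩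

namespace Nd

variable {K : FSys L} {I : ISys L} {e : L → ℕ}

theorem A1_main {q : Nd K I e} {a : L} {F : Set L} (hF : F ∈ K.W a) (hst : e a ≤ e q.lab)
    {𝒢 : Finset (Set L)} (h𝒢 : 𝒢 ∈ q.cv) (hsub : ∀ b, (∀ G ∈ 𝒢, b ∈ G) → b ∈ F) :
    (∃ G ∈ 𝒢, G ⊆ F) ∨ ∃ 𝒢' ∈ K.cov F, ∀ G' ∈ 𝒢', ∃ G ∈ 𝒢,
      (mkF a G' : Nd K I e) ≤ mkF q.lab G := by
  rcases K.virt hF 𝒢 (cv_ne h𝒢) (fun G hG => K.filt (cv_sub h𝒢 hG)) hsub with h | ⟨𝒢', h, H⟩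
  · exact Or.inl h
  · refine Or.inr ⟨𝒢', h, fun G' hG' => ?_⟩
    obtain ⟨G, hG, hs⟩ := H G' hG'
    refine ⟨G, hG, ?_⟩
    rw [mkF_eq (K.sub hF h hG'), mkF_eq (cv_sub h𝒢 hG)]
    exact Or.inl ⟨hst, hs⟩

theorem A1_el {q : Nd K I e} {a : L} (hpq : (el a : Nd K I e) ≤ q) (hst : e a ≤ e q.lab)
    {𝒢 : Finset (Set L)} (h𝒢 : 𝒢 ∈ q.cv) :
    (∃ G ∈ 𝒢, (el a : Nd K I e) ≤ mkF q.lab G) ∨ ∃ 𝒢' ∈ K.cov (Set.Ici a), ∀ G' ∈ 𝒢', ∃ G ∈ 𝒢,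
      (mkF a G' : Nd K I e) ≤ mkF q.lab G := by
  have ha : a ∈ q.Dn := by
    rcases hpq with h | ⟨c, h1, h2⟩
    · exact absurd h id
    · exact Dn.dn h2 h1
  rcases A1_main (K.mem a) hst h𝒢 (fun b hb => cv_spec h𝒢 hb ha) with ⟨G, hG, hs⟩ | h
  · refine Or.inl ⟨G, hG, ?_⟩
    rw [mkF_eq (cv_sub h𝒢 hG)]
    exact Or.inr ⟨a, le_refl a, a, hst, fun g hg => hs hg, le_refl a⟩
  · exact Or.inr h

theorem A1 (he : Function.Injective e) {p q : Nd K I e} (hpq : p ≤ q)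
    (hst : e p.lab ≤ e q.lab) {𝒢 : Finset (Set L)} (h𝒢 : 𝒢 ∈ q.cv) :
    (∃ G ∈ 𝒢, p ≤ mkF q.lab G) ∨
    (∃ 𝒢' ∈ p.cv, ∀ G' ∈ 𝒢', ∃ G ∈ 𝒢, (mkF p.lab G' : Nd K I e) ≤ mkF q.lab G) ∨
    ∃ p' : Nd K I e, e p'.lab < e p.lab ∧ p ≤ p' ∧ p' ≤ q := by
  classical
  cases p with
  | el a =>
    rcases A1_el hpq hst h𝒢 with h | h
    · exact Or.inl h
    · exact Or.inr (Or.inl h)
  | fl a F hF =>
    have hsub : ∀ b, (∀ G ∈ 𝒢, b ∈ G) → b ∈ F := by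
      intro b hb
      rcases hpq with h | ⟨c, h1, h2⟩
      · cases q with
        | el _ => exact absurd h id
        | il _ _ _ => exact absurd h id
        | fl a' G' hG' => exact h.2 (K.cover hG' h𝒢 b hb)
      · exact (K.filt hF).up _ _ h1 (cv_spec h𝒢 hb h2)
    rcases A1_main hF hst h𝒢 hsub with ⟨G, hG, hs⟩ | h
    · refine Or.inl ⟨G, hG, ?_⟩
      rw [mkF_eq (cv_sub h𝒢 hG)]
      exact Or.inl ⟨hst, hs⟩
    · exact Or.inr (Or.inl h)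
  | il a J hJ =>
    rcases hpq with h | ⟨c, ⟨d, h1, h2, h3⟩, h4⟩
    · cases q with
      | el _ => exact absurd h id
      | fl _ _ _ => exact absurd h id
      | il b J' hJ' =>
        obtain rfl : a = b := he (le_antisymm hst h.1)
        refine Or.inr (Or.inl ⟨𝒢, ?_, fun G hG => ⟨G, hG, le_rfl⟩⟩)
        have := Finset.mem_filter.1 h𝒢
        exact Finset.mem_filter.2 ⟨this.1, this.2.1, fun b hb j hj => this.2.2 b hb j (h.2 hj)⟩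
    · rcases h1.lt_or_eq with h1 | h1
      · exact Or.inr (Or.inr ⟨el d, h1, Or.inr ⟨d, ⟨d, h1.le, h2, le_refl d⟩, le_refl d⟩,
          Or.inr ⟨c, h3, h4⟩⟩)
      · obtain rfl : d = a := he h1
        have h5 : (il d J hJ : Nd K I e) ≤ el d :=
          Or.inr ⟨d, ⟨d, le_rfl, h2, le_refl d⟩, le_refl d⟩
        rcases A1_el (q := q) (Or.inr ⟨c, h3, h4⟩) hst h𝒢 with ⟨G, hG, h⟩ | ⟨𝒢', h, H⟩
        · exact Or.inl ⟨G, hG, h5.trans h⟩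
        · refine Or.inr (Or.inl ⟨𝒢', ?_, H⟩)
          refine Finset.mem_filter.2 ⟨Finset.mem_powerset.2 (K.sub (K.mem d) h),
            K.ne (K.mem d) h, fun b hb j hj => ?_⟩
          exact (h2 j hj).trans (K.cover (K.mem d) h b hb)

theorem A2_main {p : Nd K I e} {a : L} {F : Set L} (hF : F ∈ I.W a) (hst : e a ≤ e p.lab)
    {𝒥 : Finset (Set L)} (h𝒥 : 𝒥 ∈ p.cvd) (hsub : ∀ b, (∀ J ∈ 𝒥, b ∈ J) → b ∈ F) :
    (∃ J ∈ 𝒥, J ⊆ F) ∨ ∃ 𝒥' ∈ I.cov F, ∀ J' ∈ 𝒥', ∃ J ∈ 𝒥,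
      (mkI p.lab J : Nd K I e) ≤ mkI a J' := by
  rcases I.virt hF 𝒥 (cvd_ne h𝒥) (fun G hG => I.idl (cvd_sub h𝒥 hG)) hsub with h | ⟨𝒢', h, H⟩
  · exact Or.inl h
  · refine Or.inr ⟨𝒢', h, fun G' hG' => ?_⟩
    obtain ⟨G, hG, hs⟩ := H G' hG'
    refine ⟨G, hG, ?_⟩
    rw [mkI_eq (I.sub hF h hG'), mkI_eq (cvd_sub h𝒥 hG)]
    exact Or.inl ⟨hst, hs⟩

theorem A2_el {p : Nd K I e} {a : L} (hpq : p ≤ (el a : Nd K I e)) (hst : e a ≤ e p.lab)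
    {𝒥 : Finset (Set L)} (h𝒥 : 𝒥 ∈ p.cvd) :
    (∃ J ∈ 𝒥, (mkI p.lab J : Nd K I e) ≤ el a) ∨ ∃ 𝒥' ∈ I.cov (Set.Iic a), ∀ J' ∈ 𝒥', ∃ J ∈ 𝒥,
      (mkI p.lab J : Nd K I e) ≤ mkI a J' := by
  have ha : a ∈ p.Up := by
    rcases hpq with h | ⟨c, h1, h2⟩
    · cases p <;> exact absurd h id
    · exact Up.up h1 h2
  rcases A2_main (I.mem a) hst h𝒥 (fun b hb => cvd_spec h𝒥 hb ha) with ⟨G, hG, hs⟩ | h
  · refine Or.inl ⟨G, hG, ?_⟩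
    rw [mkI_eq (cvd_sub h𝒥 hG)]
    exact Or.inr ⟨a, ⟨a, hst, fun g hg => hs hg, le_refl a⟩, le_refl a⟩
  · exact Or.inr h

theorem A2 (he : Function.Injective e) {p q : Nd K I e} (hpq : p ≤ q)
    (hst : e q.lab ≤ e p.lab) {𝒥 : Finset (Set L)} (h𝒥 : 𝒥 ∈ p.cvd) :
    (∃ J ∈ 𝒥, mkI p.lab J ≤ q) ∨
    (∃ 𝒥' ∈ q.cvd, ∀ J' ∈ 𝒥', ∃ J ∈ 𝒥, (mkI p.lab J : Nd K I e) ≤ mkI q.lab J') ∨
    ∃ q' : Nd K I e, e q'.lab < e q.lab ∧ p ≤ q' ∧ q' ≤ q := by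
  classical
  cases q with
  | el a =>
    rcases A2_el hpq hst h𝒥 with h | h
    · exact Or.inl h
    · exact Or.inr (Or.inl h)
  | il a F hF =>
    have hsub : ∀ b, (∀ G ∈ 𝒥, b ∈ G) → b ∈ F := by
      intro b hb
      rcases hpq with h | ⟨c, h1, h2⟩
      · cases p with
        | el _ => exact absurd h id
        | fl _ _ _ => exact absurd h id
        | il a' G' hG' => exact h.2 (I.cover hG' h𝒥 b hb)
      · exact (I.idl hF).dn _ _ h2 (cvd_spec h𝒥 hb h1)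
    rcases A2_main hF hst h𝒥 hsub with ⟨G, hG, hs⟩ | h
    · refine Or.inl ⟨G, hG, ?_⟩
      rw [mkI_eq (cvd_sub h𝒥 hG)]
      exact Or.inl ⟨hst, hs⟩
    · exact Or.inr (Or.inl h)
  | fl a G hG =>
    rcases hpq with h | ⟨c, h4, ⟨d, h1, h2, h3⟩⟩
    · cases p with
      | el _ => exact absurd h id
      | il _ _ _ => exact absurd h id
      | fl b G' hG' =>
        obtain rfl : a = b := he (le_antisymm hst h.1)
        refine Or.inr (Or.inl ⟨𝒥, ?_, fun G hG => ⟨G, hG, le_rfl⟩⟩)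
        have := Finset.mem_filter.1 h𝒥
        exact Finset.mem_filter.2 ⟨this.1, this.2.1, fun b hb j hj => this.2.2 b hb j (h.2 hj)⟩
    · rcases h1.lt_or_eq with h1 | h1
      · exact Or.inr (Or.inr ⟨el d, h1, Or.inr ⟨c, h4, h3⟩,
          Or.inr ⟨d, le_refl d, ⟨d, h1.le, h2, le_refl d⟩⟩⟩)
      · obtain rfl : d = a := he h1
        have h5 : (el d : Nd K I e) ≤ fl d G hG :=
          Or.inr ⟨d, le_refl d, ⟨d, le_rfl, h2, le_refl d⟩⟩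
        rcases A2_el (p := p) (Or.inr ⟨c, h4, h3⟩) hst h𝒥 with ⟨J, hJ, h⟩ | ⟨𝒥', h, H⟩
        · exact Or.inl ⟨J, hJ, h.trans h5⟩
        · refine Or.inr (Or.inl ⟨𝒥', ?_, H⟩)
          refine Finset.mem_filter.2 ⟨Finset.mem_powerset.2 (I.sub (I.mem d) h),
            I.ne (I.mem d) h, fun b hb j hj => ?_⟩
          exact le_trans (I.cover (I.mem d) h b hb) (h2 j hj)

end Nd

/-! ### Whitman's condition for finite families -/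

theorem whitman_fin₁ (hW : Whitman L) {a b : L} {κ : Type*} (t : Finset κ) (ht : t.Nonempty)
    (z : κ → L) (h : a ⊓ b ≤ t.sup' ht z) :
    a ≤ t.sup' ht z ∨ b ≤ t.sup' ht z ∨ ∃ j ∈ t, a ⊓ b ≤ z j := by
  induction ht using Finset.Nonempty.cons_induction with
  | singleton c => exact Or.inr (Or.inr ⟨c, by simp, by simpa using h⟩)
  | cons c s hc hs ih =>
    rw [Finset.sup'_cons hs] at h
    rw [Finset.sup'_cons hs]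
    rcases hW _ _ _ _ h with h | h | h | h
    · exact Or.inl h
    · exact Or.inr (Or.inl h)
    · exact Or.inr (Or.inr ⟨c, by simp, h⟩)
    · rcases ih h with h | h | ⟨d, hd, h⟩
      · exact Or.inl (h.trans le_sup_right)
      · exact Or.inr (Or.inl (h.trans le_sup_right))
      · exact Or.inr (Or.inr ⟨d, by simp [hd], h⟩)

theorem whitman_fin₂ (hW : Whitman L) {ι κ : Type*} (s : Finset ι) (hs : s.Nonempty) (y : ι → L)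
    (t : Finset κ) (ht : t.Nonempty) (z : κ → L) (h : s.inf' hs y ≤ t.sup' ht z) :
    (∃ i ∈ s, y i ≤ t.sup' ht z) ∨ ∃ j ∈ t, s.inf' hs y ≤ z j := by
  induction hs using Finset.Nonempty.cons_induction with
  | singleton c => exact Or.inl ⟨c, by simp, by simpa using h⟩
  | cons c s hc hs ih =>
    rw [Finset.inf'_cons hs] at h
    rw [Finset.inf'_cons hs]
    rcases whitman_fin₁ hW t ht z h with h | h | h
    · exact Or.inl ⟨c, by simp, h⟩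
    · rcases ih h with ⟨d, hd, h⟩ | ⟨j, hj, h⟩
      · exact Or.inl ⟨d, by simp [hd], h⟩
      · exact Or.inr ⟨j, hj, inf_le_right.trans h⟩
    · exact Or.inr h

theorem inf'_mem {F : Set L} (hF : ∀ a b, a ∈ F → b ∈ F → a ⊓ b ∈ F) {ι : Type*} (s : Finset ι)
    (hs : s.Nonempty) (y : ι → L) (h : ∀ i ∈ s, y i ∈ F) : s.inf' hs y ∈ F :=
  Finset.inf'_induction hs y (fun a ha b hb => hF a b ha hb) h

theorem sup'_mem {F : Set L} (hF : ∀ a b, a ∈ F → b ∈ F → a ⊔ b ∈ F) {ι : Type*} (s : Finset ι)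
    (hs : s.Nonempty) (y : ι → L) (h : ∀ i ∈ s, y i ∈ F) : s.sup' hs y ∈ F :=
  Finset.sup'_induction hs y (fun a ha b hb => hF a b ha hb) h

/-- A uniform form of Whitman's condition for ideals and filters. -/
theorem uniformW (hW : Whitman L) (𝒥 𝒢 : Finset (Set L)) (h𝒥 : 𝒥.Nonempty) (h𝒢 : 𝒢.Nonempty)
    (hi : ∀ J ∈ 𝒥, IsIdl J) (hf : ∀ G ∈ 𝒢, IsFilt G)
    (H : ∀ c, (∀ J ∈ 𝒥, c ∈ J) → ∀ d, (∀ G ∈ 𝒢, d ∈ G) → c ≤ d) :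
    (∃ J ∈ 𝒥, ∀ j ∈ J, ∀ d, (∀ G ∈ 𝒢, d ∈ G) → j ≤ d) ∨
    ∃ G ∈ 𝒢, ∀ g ∈ G, ∀ c, (∀ J ∈ 𝒥, c ∈ J) → c ≤ g := by
  classical
  have : Nonempty L := by
    obtain ⟨J, hJ⟩ := h𝒥
    exact ⟨(hi J hJ).nonempty.some⟩
  by_contra hcon
  push Not at hcon
  obtain ⟨c1, c2⟩ := hcon
  choose! c hc d hd hcd using c1
  choose! f hf' e he hef using c2
  have hD : ∀ G ∈ 𝒢, 𝒥.inf' h𝒥 d ∈ G := fun G hG =>
    inf'_mem (hf G hG).inf _ _ _ fun J hJ => hd J hJ G hG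
  have hE : ∀ J ∈ 𝒥, 𝒢.sup' h𝒢 e ∈ J := fun J hJ =>
    sup'_mem (hi J hJ).sup _ _ _ fun G hG => he G hG J hJ
  have hY : ∀ J ∈ 𝒥, 𝒥.inf' h𝒥 (fun J => c J ⊔ 𝒢.sup' h𝒢 e) ∈ J := fun J hJ =>
    (hi J hJ).dn _ _ ((hi J hJ).sup _ _ (hc J hJ) (hE J hJ))
      (Finset.inf'_le (fun J => c J ⊔ 𝒢.sup' h𝒢 e) hJ)
  have hZ : ∀ G ∈ 𝒢, 𝒢.sup' h𝒢 (fun G => f G ⊓ 𝒥.inf' h𝒥 d) ∈ G := fun G hG =>
    (hf G hG).up _ _ ((hf G hG).inf _ _ (hf' G hG) (hD G hG))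
      (Finset.le_sup' (fun G => f G ⊓ 𝒥.inf' h𝒥 d) hG)
  rcases whitman_fin₂ hW 𝒥 h𝒥 _ 𝒢 h𝒢 _ (H _ hY _ hZ) with ⟨J, hJ, h⟩ | ⟨G, hG, h⟩
  · apply hcd J hJ
    refine le_sup_left.trans (h.trans ?_)
    refine (Finset.sup'_le _ _ fun G hG => inf_le_right).trans (Finset.inf'_le _ hJ)
  · apply hef G hG
    refine le_trans ?_ (h.trans inf_le_left)
    refine (Finset.le_sup' e hG).trans (Finset.le_inf' _ _ fun J hJ => le_sup_right)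

namespace Nd

variable {K : FSys L} {I : ISys L} {e : L → ℕ}

theorem A3 (hW : Whitman L) {q : Nd K I e} {𝒥 𝒢 : Finset (Set L)} (h𝒥 : 𝒥 ∈ q.cvd)
    (h𝒢 : 𝒢 ∈ q.cv) : (∃ J ∈ 𝒥, 𝒢 ∈ (mkI q.lab J : Nd K I e).cv) ∨
      ∃ G ∈ 𝒢, 𝒥 ∈ (mkF q.lab G : Nd K I e).cvd := by
  classical
  have H : ∀ c, (∀ J ∈ 𝒥, c ∈ J) → ∀ d, (∀ G ∈ 𝒢, d ∈ G) → c ≤ d := by
    intro c hc d hd
    cases q with
    | el a =>
      exact (cvd_spec h𝒥 hc (show a ∈ Up (el a : Nd K I e) from le_refl a)).trans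
        (cv_spec h𝒢 hd (show a ∈ Dn (el a : Nd K I e) from le_refl a))
    | fl a G hG => exact cvd_spec h𝒥 hc (K.cover hG h𝒢 d hd)
    | il a J hJ => exact cv_spec h𝒢 hd (I.cover hJ h𝒥 c hc)
  rcases uniformW hW 𝒥 𝒢 (cvd_ne h𝒥) (cv_ne h𝒢) (fun J hJ => I.idl (cvd_sub h𝒥 hJ))
    (fun G hG => K.filt (cv_sub h𝒢 hG)) H with ⟨J, hJ, h⟩ | ⟨G, hG, h⟩
  · refine Or.inl ⟨J, hJ, ?_⟩
    rw [mkI_eq (cvd_sub h𝒥 hJ)]
    exact Finset.mem_filter.2 ⟨Finset.mem_powerset.2 (cv_sub h𝒢), cv_ne h𝒢,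
      fun b hb j hj => h j hj b hb⟩
  · refine Or.inr ⟨G, hG, ?_⟩
    rw [mkF_eq (cv_sub h𝒢 hG)]
    exact Finset.mem_filter.2 ⟨Finset.mem_powerset.2 (cvd_sub h𝒥), cvd_ne h𝒥,
      fun b hb j hj => h j hj b hb⟩

end Nd

end Pool.Agent.H41.FL
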