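import Mathlib

/-!
# The core construction

A lattice contained in a preorder with a stage function with finite fibres and with finite systems
of join covers and meet covers is mapped homomorphically into any bounded lattice generated by
sufficiently generic elements.
-/

namespace Pool.Agent.H41.FL

universe u v w

theorem exists_rec {Q : Type*} {A : Type*} [Nonempty A] (ρ : Q → ℕ) (Φ : (Q → A) → Q → A)
    (hΦ : ∀ f g q, (∀ p, ρ p < ρ q → f p = g p) → Φ f q = Φ g q) :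
    ∃ k : Q → A, ∀ q, k q = Φ k q := by
  let kk : ℕ → Q → A := fun n => Nat.rec (fun _ => Classical.arbitrary A) (fun _ f => Φ f) n
  have hs : ∀ n, kk (n + 1) = Φ (kk n) := fun n => rfl
  have key : ∀ n m q, ρ q < n → ρ q < m → kk n q = kk m q := by
    intro n
    induction n with
    | zero => intro m q h; exact absurd h (Nat.not_lt_zero _)
    | succ n ih =>
      intro m q h h'
      obtain ⟨m, rfl⟩ : ∃ m', m = m' + 1 := ⟨m - 1, by omega⟩
      rw [hs, hs]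
      exact hΦ _ _ _ fun p hp => ih _ _ (by omega) (by omega)
  refine ⟨fun q => kk (ρ q + 1) q, fun q => ?_⟩
  show kk (ρ q + 1) q = _
  rw [hs]
  exact hΦ _ _ _ fun p hp => key (ρ q) (ρ p + 1) p hp (by omega)

/-- The data of the construction. -/
structure Core (L : Type u) (Q : Type v) [Lattice L] [Preorder Q] where
  st : Q → ℕ
  S : Q → Finset Q
  D : Q → Finset Q
  U : Q → Finset Q
  hS : ∀ {p q}, p ∈ S q ↔ st p = st q ∧ p ≤ q
  hD : ∀ {p q}, p ∈ D q ↔ st p < st q ∧ p ≤ q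
  hU : ∀ {p q}, p ∈ U q ↔ st p < st q ∧ q ≤ p
  C : Q → Finset (Finset Q)
  Cd : Q → Finset (Finset Q)
  ρ : Q → ℕ
  ρd : Q → ℕ
  ρ_st : ∀ {p q}, st p < st q → ρ p < ρ q
  ρ_C : ∀ {q 𝒢 g}, 𝒢 ∈ C q → g ∈ 𝒢 → ρ g < ρ q
  ρd_st : ∀ {p q}, st p < st q → ρd p < ρd q
  ρd_C : ∀ {q 𝒥 g}, 𝒥 ∈ Cd q → g ∈ 𝒥 → ρd g < ρd q
  A1 : ∀ {p q}, p ≤ q → st p ≤ st q → ∀ 𝒢 ∈ C q, (∃ r ∈ 𝒢, p ≤ r) ∨
    (∃ 𝒢' ∈ C p, ∀ g' ∈ 𝒢', ∃ g ∈ 𝒢, g' ≤ g) ∨ ∃ p', st p' < st p ∧ p ≤ p' ∧ p' ≤ q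
  A2 : ∀ {p q}, p ≤ q → st q ≤ st p → ∀ 𝒥 ∈ Cd p, (∃ s ∈ 𝒥, s ≤ q) ∨
    (∃ 𝒥' ∈ Cd q, ∀ s' ∈ 𝒥', ∃ s ∈ 𝒥, s ≤ s') ∨ ∃ q', st q' < st q ∧ p ≤ q' ∧ q' ≤ q
  A3 : ∀ {q}, ∀ 𝒥 ∈ Cd q, ∀ 𝒢 ∈ C q, (∃ s ∈ 𝒥, 𝒢 ∈ C s) ∨ ∃ r ∈ 𝒢, 𝒥 ∈ Cd r
  el : L → Q
  hel : ∀ {a b}, a ≤ b → el a ≤ el b
  J2 : ∀ {a b c}, a ≤ b ⊔ c → el a ≤ el b ∨ el a ≤ el c ∨
    ∃ 𝒢 ∈ C (el a), ∀ g ∈ 𝒢, g ≤ el b ∨ g ≤ el c
  M2 : ∀ {a b c}, b ⊓ c ≤ a → el b ≤ el a ∨ el c ≤ el a ∨
    ∃ 𝒥 ∈ Cd (el a), ∀ g ∈ 𝒥, el b ≤ g ∨ el c ≤ g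

variable {L : Type u} {Q : Type v} [Lattice L] [Preorder Q]

theorem Core.main (K : Core L Q) {B : Type w} [Lattice B] [BoundedOrder B] (x : Q → B) :
    ∃ G : Q → B, (∀ b c, G (K.el (b ⊔ c)) = G (K.el b) ⊔ G (K.el c)) ∧
      (∀ b c, G (K.el (b ⊓ c)) = G (K.el b) ⊓ G (K.el c)) ∧
      ∀ (M : Type w) [Lattice M] [BoundedOrder M] (f : BoundedLatticeHom B M) (v : Q → M),
        (∀ q, f (x q) = v q) → Monotone v → (∀ q, ∀ 𝒢 ∈ K.C q, v q ≤ 𝒢.sup v) →
        (∀ q, ∀ 𝒥 ∈ K.Cd q, 𝒥.inf v ≤ v q) → ∀ q, f (G q) = v q := by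
  classical
  -- the first map
  obtain ⟨k, hk⟩ := exists_rec (A := B) K.ρ
    (fun k q => ((K.S q).sup x ⊔ (K.D q).sup k) ⊓ (K.U q).inf k ⊓
      (K.C q).inf (fun 𝒢 => 𝒢.sup k)) (by
        intro f g q h
        have e1 : (K.D q).sup f = (K.D q).sup g :=
          Finset.sup_congr rfl fun p hp => h p (K.ρ_st (K.hD.1 hp).1)
        have e2 : (K.U q).inf f = (K.U q).inf g :=
          Finset.inf_congr rfl fun p hp => h p (K.ρ_st (K.hU.1 hp).1)
        have e3 : (K.C q).inf (fun 𝒢 => 𝒢.sup f) = (K.C q).inf (fun 𝒢 => 𝒢.sup g) :=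
          Finset.inf_congr rfl fun 𝒢 h𝒢 => Finset.sup_congr rfl fun p hp => h p (K.ρ_C h𝒢 hp)
        show _ ⊓ _ ⊓ _ = _ ⊓ _ ⊓ _
        rw [e1, e2, e3])
  have k1 : ∀ q, k q ≤ (K.S q).sup x ⊔ (K.D q).sup k := fun q => by
    rw [hk q]; exact inf_le_left.trans inf_le_left
  have k2 : ∀ {p q}, K.st q < K.st p → p ≤ q → k p ≤ k q := fun {p q} h h' => by
    rw [hk p]; exact (inf_le_left.trans inf_le_right).trans (Finset.inf_le (K.hU.2 ⟨h, h'⟩))
  have k3 : ∀ {q 𝒢}, 𝒢 ∈ K.C q → k q ≤ 𝒢.sup k := fun {q 𝒢} h => by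
    rw [hk q]; exact inf_le_right.trans (Finset.inf_le (f := fun 𝒢 => 𝒢.sup k) h)
  have kmono' : ∀ n p q, K.ρ p + K.ρ q ≤ n → p ≤ q → k p ≤ k q := by
    intro n
    induction n using Nat.strong_induction_on with
    | _ n ih =>
    intro p q hn hpq
    rcases lt_or_ge (K.st q) (K.st p) with h | h
    · exact k2 h hpq
    conv_rhs => rw [hk q]
    refine le_inf (le_inf ?_ ?_) ?_
    · rcases h.lt_or_eq with h | h
      · exact le_sup_of_le_right (Finset.le_sup (K.hD.2 ⟨h, hpq⟩))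
      · refine (k1 p).trans (sup_le_sup (Finset.sup_mono ?_) (Finset.sup_mono ?_))
        · intro r hr
          have := K.hS.1 hr
          exact K.hS.2 ⟨by rw [this.1, h], this.2.trans hpq⟩
        · intro r hr
          have := K.hD.1 hr
          exact K.hD.2 ⟨by rw [← h]; exact this.1, this.2.trans hpq⟩
    · refine Finset.le_inf fun u hu => ?_
      have := K.hU.1 hu
      have := K.ρ_st this.1
      exact ih (K.ρ p + K.ρ u) (by omega) p u le_rfl (hpq.trans (K.hU.1 hu).2)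
    · refine Finset.le_inf fun 𝒢 h𝒢 => ?_
      rcases K.A1 hpq h 𝒢 h𝒢 with ⟨r, hr, hpr⟩ | ⟨𝒢', h𝒢', H⟩ | ⟨p', h1, h2, h3⟩
      · have := K.ρ_C h𝒢 hr
        exact (ih (K.ρ p + K.ρ r) (by omega) p r le_rfl hpr).trans (Finset.le_sup hr)
      · refine (k3 h𝒢').trans (Finset.sup_le fun g' hg' => ?_)
        obtain ⟨g, hg, hgg⟩ := H g' hg'
        have e1 := K.ρ_C h𝒢 hg
        have e2 := K.ρ_C h𝒢' hg'
        exact (ih (K.ρ g' + K.ρ g) (by omega) g' g le_rfl hgg).trans (Finset.le_sup hg)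
      · have := K.ρ_st h1
        exact (k2 h1 h2).trans ((ih (K.ρ p' + K.ρ q) (by omega) p' q le_rfl h3).trans (k3 h𝒢))
  have kmono : ∀ {p q}, p ≤ q → k p ≤ k q := fun {p q} h => kmono' _ p q le_rfl h
  -- the second map
  obtain ⟨G, hG⟩ := exists_rec (A := B) K.ρd
    (fun G q => k q ⊔ (K.Cd q).sup (fun 𝒥 => 𝒥.inf G) ⊔ (K.D q).sup G) (by
        intro f g q h
        have e1 : (K.D q).sup f = (K.D q).sup g :=
          Finset.sup_congr rfl fun p hp => h p (K.ρd_st (K.hD.1 hp).1)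
        have e3 : (K.Cd q).sup (fun 𝒥 => 𝒥.inf f) = (K.Cd q).sup (fun 𝒥 => 𝒥.inf g) :=
          Finset.sup_congr rfl fun 𝒢 h𝒢 => Finset.inf_congr rfl fun p hp => h p (K.ρd_C h𝒢 hp)
        show _ ⊔ _ ⊔ _ = _ ⊔ _ ⊔ _
        rw [e1, e3])
  have G1 : ∀ q, k q ≤ G q := fun q => by
    rw [hG q]; exact le_sup_left.trans le_sup_left
  have G2 : ∀ {p q}, K.st p < K.st q → p ≤ q → G p ≤ G q := fun {p q} h h' => by
    rw [hG q]; exact (Finset.le_sup (K.hD.2 ⟨h, h'⟩)).trans le_sup_right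
  have G3 : ∀ {q 𝒥}, 𝒥 ∈ K.Cd q → 𝒥.inf G ≤ G q := fun {q 𝒥} h => by
    rw [hG q]
    exact (Finset.le_sup (f := fun 𝒥 : Finset Q => 𝒥.inf G) h).trans (le_sup_right.trans le_sup_left)
  have Gmono' : ∀ n p q, K.ρd p + K.ρd q ≤ n → p ≤ q → G p ≤ G q := by
    intro n
    induction n using Nat.strong_induction_on with
    | _ n ih =>
    intro p q hn hpq
    rcases lt_or_ge (K.st p) (K.st q) with h | h
    · exact G2 h hpq
    conv_lhs => rw [hG p]
    refine sup_le (sup_le ((kmono hpq).trans (G1 q)) ?_) ?_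
    · refine Finset.sup_le fun 𝒥 h𝒥 => ?_
      rcases K.A2 hpq h 𝒥 h𝒥 with ⟨s, hs, hsq⟩ | ⟨𝒥', h𝒥', H⟩ | ⟨q', h1, h2, h3⟩
      · have := K.ρd_C h𝒥 hs
        exact (Finset.inf_le hs).trans (ih (K.ρd s + K.ρd q) (by omega) s q le_rfl hsq)
      · refine (Finset.le_inf fun s' hs' => ?_).trans (G3 h𝒥')
        obtain ⟨s, hs, hss⟩ := H s' hs'
        have e1 := K.ρd_C h𝒥 hs
        have e2 := K.ρd_C h𝒥' hs'
        exact (Finset.inf_le hs).trans (ih (K.ρd s + K.ρd s') (by omega) s s' le_rfl hss)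
      · have := K.ρd_st h1
        exact (G3 h𝒥).trans ((ih (K.ρd p + K.ρd q') (by omega) p q' le_rfl h2).trans (G2 h1 h3))
    · refine Finset.sup_le fun d hd => ?_
      have h1 := K.hD.1 hd
      have := K.ρd_st h1.1
      exact ih (K.ρd d + K.ρd q) (by omega) d q le_rfl (h1.2.trans hpq)
  have Gmono : ∀ {p q}, p ≤ q → G p ≤ G q := fun {p q} h => Gmono' _ p q le_rfl h
  -- join covers are respected by the second map
  have Gjoin : ∀ n q, K.ρd q ≤ n → ∀ 𝒢 ∈ K.C q, G q ≤ 𝒢.sup G := by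
    intro n
    induction n using Nat.strong_induction_on with
    | _ n ih =>
    intro q hn 𝒢 h𝒢
    conv_lhs => rw [hG q]
    refine sup_le (sup_le ((k3 h𝒢).trans (Finset.sup_mono_fun fun r _ => G1 r)) ?_) ?_
    · refine Finset.sup_le fun 𝒥 h𝒥 => ?_
      rcases K.A3 𝒥 h𝒥 𝒢 h𝒢 with ⟨s, hs, H⟩ | ⟨r, hr, H⟩
      · have := K.ρd_C h𝒥 hs
        exact (Finset.inf_le hs).trans (ih (K.ρd s) (by omega) s le_rfl 𝒢 H)
      · exact (G3 H).trans (Finset.le_sup hr)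
    · refine Finset.sup_le fun d hd => ?_
      have key : ∀ m d, K.st d ≤ m → K.st d < K.st q → d ≤ q → G d ≤ 𝒢.sup G := by
        intro m
        induction m using Nat.strong_induction_on with
        | _ m ihm =>
        intro d hm hst hdq
        rcases K.A1 hdq hst.le 𝒢 h𝒢 with ⟨r, hr, hpr⟩ | ⟨𝒢', h𝒢', H⟩ | ⟨p', h1, h2, h3⟩
        · exact (Gmono hpr).trans (Finset.le_sup hr)
        · have := K.ρd_st hst
          refine (ih (K.ρd d) (by omega) d le_rfl 𝒢' h𝒢').trans (Finset.sup_le fun g' hg' => ?_)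
          obtain ⟨g, hg, hgg⟩ := H g' hg'
          exact (Gmono hgg).trans (Finset.le_sup hg)
        · exact (Gmono h2).trans (ihm (K.st p') (by omega) p' le_rfl (by omega) h3)
      exact key _ d le_rfl (K.hD.1 hd).1 (K.hD.1 hd).2
  refine ⟨G, ?_, ?_, ?_⟩
  · intro b c
    refine le_antisymm ?_ (sup_le (Gmono (K.hel le_sup_left)) (Gmono (K.hel le_sup_right)))
    rcases K.J2 (le_refl (b ⊔ c)) with h | h | ⟨𝒢, h𝒢, H⟩
    · exact (Gmono h).trans le_sup_left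
    · exact (Gmono h).trans le_sup_right
    · refine (Gjoin _ _ le_rfl 𝒢 h𝒢).trans (Finset.sup_le fun g hg => ?_)
      rcases H g hg with h | h
      · exact (Gmono h).trans le_sup_left
      · exact (Gmono h).trans le_sup_right
  · intro b c
    refine le_antisymm (le_inf (Gmono (K.hel inf_le_left)) (Gmono (K.hel inf_le_right))) ?_
    rcases K.M2 (le_refl (b ⊓ c)) with h | h | ⟨𝒥, h𝒥, H⟩
    · exact inf_le_left.trans (Gmono h)
    · exact inf_le_right.trans (Gmono h)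
    · refine (Finset.le_inf fun g hg => ?_).trans (G3 h𝒥)
      rcases H g hg with h | h
      · exact inf_le_left.trans (Gmono h)
      · exact inf_le_right.trans (Gmono h)
  · intro M _ _ f v hx hv hc hm
    have fk : ∀ n q, K.ρ q ≤ n → f (k q) = v q := by
      intro n
      induction n using Nat.strong_induction_on with
      | _ n ih =>
      intro q hn
      rw [hk q]
      simp only [map_inf, map_sup, map_finset_sup, map_finset_inf]
      have e1 : (K.S q).sup (f ∘ x) ≤ v q := Finset.sup_le fun p hp => by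
        show f (x p) ≤ v q
        rw [hx]; exact hv (K.hS.1 hp).2
      have e2 : (K.D q).sup (f ∘ k) ≤ v q := Finset.sup_le fun p hp => by
        have h1 := K.hD.1 hp
        have := K.ρ_st h1.1
        show f (k p) ≤ v q
        rw [ih (K.ρ p) (by omega) p le_rfl]; exact hv h1.2
      have e3 : v q ≤ (K.S q).sup (f ∘ x) := by
        have : q ∈ K.S q := K.hS.2 ⟨rfl, le_rfl⟩
        refine le_trans ?_ (Finset.le_sup this)
        show v q ≤ f (x q)
        rw [hx]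
      have e4 : v q ≤ (K.U q).inf (f ∘ k) := Finset.le_inf fun p hp => by
        have h1 := K.hU.1 hp
        have := K.ρ_st h1.1
        show v q ≤ f (k p)
        rw [ih (K.ρ p) (by omega) p le_rfl]; exact hv h1.2
      have e5 : v q ≤ (K.C q).inf (f ∘ fun 𝒢 => 𝒢.sup k) := Finset.le_inf fun 𝒢 h𝒢 => by
        show v q ≤ f (𝒢.sup k)
        rw [map_finset_sup]
        refine (hc q 𝒢 h𝒢).trans (Finset.sup_le fun g hg => ?_)
        refine le_trans ?_ (Finset.le_sup hg)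
        have := K.ρ_C h𝒢 hg
        show v g ≤ f (k g)
        rw [ih (K.ρ g) (by omega) g le_rfl]
      refine le_antisymm ((inf_le_left.trans inf_le_left).trans (sup_le e1 e2)) ?_
      exact le_inf (le_inf (le_sup_of_le_left e3) e4) e5
    have fG : ∀ n q, K.ρd q ≤ n → f (G q) = v q := by
      intro n
      induction n using Nat.strong_induction_on with
      | _ n ih =>
      intro q hn
      rw [hG q]
      simp only [map_sup, map_finset_sup]
      rw [fk _ q le_rfl]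
      refine le_antisymm (sup_le (sup_le le_rfl ?_) ?_) (le_sup_left.trans le_sup_left)
      · refine Finset.sup_le fun 𝒥 h𝒥 => ?_
        show f (𝒥.inf G) ≤ v q
        rw [map_finset_inf]
        refine (Finset.le_inf fun g hg => ?_).trans (hm q 𝒥 h𝒥)
        refine (Finset.inf_le hg).trans ?_
        have := K.ρd_C h𝒥 hg
        show f (G g) ≤ v g
        rw [ih (K.ρd g) (by omega) g le_rfl]
      · refine Finset.sup_le fun p hp => ?_
        have h1 := K.hD.1 hp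
        have := K.ρd_st h1.1
        show f (G p) ≤ v q
        rw [ih (K.ρd p) (by omega) p le_rfl]; exact hv h1.2
    exact fun q => fG _ q le_rfl

end Pool.Agent.H41.FL
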