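import Mathlib
import Pool.Agent.H41.FL.Defs

/-!
# The free lattice by terms and Whitman's solution of the word problem
-/

namespace Pool.Agent.H41.FL

universe u

/-- Lattice terms. -/
inductive Tm (X : Type u) : Type u
  | var (x : X) : Tm X
  | sup (s t : Tm X) : Tm X
  | inf (s t : Tm X) : Tm X

namespace Tm

variable {X : Type u}

/-- Whitman's order on terms. -/
inductive Le : Tm X → Tm X → Prop
  | var (x : X) : Le (var x) (var x)
  | supL {s₁ s₂ t : Tm X} : Le s₁ t → Le s₂ t → Le (sup s₁ s₂) t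
  | supR₁ {s t₁ t₂ : Tm X} : Le s t₁ → Le s (sup t₁ t₂)
  | supR₂ {s t₁ t₂ : Tm X} : Le s t₂ → Le s (sup t₁ t₂)
  | infR {s t₁ t₂ : Tm X} : Le s t₁ → Le s t₂ → Le s (inf t₁ t₂)
  | infL₁ {s₁ s₂ t : Tm X} : Le s₁ t → Le (inf s₁ s₂) t
  | infL₂ {s₁ s₂ t : Tm X} : Le s₂ t → Le (inf s₁ s₂) t

theorem Le.refl (t : Tm X) : Le t t := by
  induction t with
  | var x => exact .var x
  | sup s t hs ht => exact .supL (.supR₁ hs) (.supR₂ ht)
  | inf s t hs ht => exact .infR (.infL₁ hs) (.infL₂ ht)

theorem Le.sup_left {s₁ s₂ t : Tm X} (h : Le (sup s₁ s₂) t) : Le s₁ t ∧ Le s₂ t := by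
  generalize hs : Tm.sup s₁ s₂ = s at h
  induction h with
  | var x => cases hs
  | supL h₁ h₂ => cases hs; exact ⟨h₁, h₂⟩
  | supR₁ _ ih => exact ⟨.supR₁ (ih hs).1, .supR₁ (ih hs).2⟩
  | supR₂ _ ih => exact ⟨.supR₂ (ih hs).1, .supR₂ (ih hs).2⟩
  | infR _ _ ih₁ ih₂ => exact ⟨.infR (ih₁ hs).1 (ih₂ hs).1, .infR (ih₁ hs).2 (ih₂ hs).2⟩
  | infL₁ _ _ => cases hs
  | infL₂ _ _ => cases hs

theorem Le.inf_right {s t₁ t₂ : Tm X} (h : Le s (inf t₁ t₂)) : Le s t₁ ∧ Le s t₂ := by
  generalize ht : Tm.inf t₁ t₂ = t at h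
  induction h with
  | var x => cases ht
  | infR h₁ h₂ => cases ht; exact ⟨h₁, h₂⟩
  | supL _ _ ih₁ ih₂ => exact ⟨.supL (ih₁ ht).1 (ih₂ ht).1, .supL (ih₁ ht).2 (ih₂ ht).2⟩
  | infL₁ _ ih => exact ⟨.infL₁ (ih ht).1, .infL₁ (ih ht).2⟩
  | infL₂ _ ih => exact ⟨.infL₂ (ih ht).1, .infL₂ (ih ht).2⟩
  | supR₁ _ _ => cases ht
  | supR₂ _ _ => cases ht

theorem Le.trans {s t u : Tm X} (h₁ : Le s t) (h₂ : Le t u) : Le s u := by
  induction t generalizing s u with
  | var x =>
    generalize ht : Tm.var x = t at h₁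
    induction h₁ with
    | var y => cases ht; exact h₂
    | supL _ _ ih₁ ih₂ => exact .supL (ih₁ ht) (ih₂ ht)
    | infL₁ _ ih => exact .infL₁ (ih ht)
    | infL₂ _ ih => exact .infL₂ (ih ht)
    | supR₁ _ _ => cases ht
    | supR₂ _ _ => cases ht
    | infR _ _ _ _ => cases ht
  | sup t₁ t₂ iht₁ iht₂ =>
    generalize ht : Tm.sup t₁ t₂ = t at h₁
    induction h₁ with
    | var y => cases ht
    | supL _ _ ih₁ ih₂ => exact .supL (ih₁ ht) (ih₂ ht)
    | infL₁ _ ih => exact .infL₁ (ih ht)
    | infL₂ _ ih => exact .infL₂ (ih ht)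
    | supR₁ h _ => cases ht; exact iht₁ h h₂.sup_left.1
    | supR₂ h _ => cases ht; exact iht₂ h h₂.sup_left.2
    | infR _ _ _ _ => cases ht
  | inf t₁ t₂ iht₁ iht₂ =>
    generalize ht : Tm.inf t₁ t₂ = t at h₂
    induction h₂ with
    | var y => cases ht
    | supR₁ _ ih => exact .supR₁ (ih ht)
    | supR₂ _ ih => exact .supR₂ (ih ht)
    | infR _ _ ih₁ ih₂ => exact .infR (ih₁ ht) (ih₂ ht)
    | infL₁ h _ => cases ht; exact iht₁ h₁.inf_right.1 h
    | infL₂ h _ => cases ht; exact iht₂ h₁.inf_right.2 h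
    | supL _ _ _ _ => cases ht

instance : Preorder (Tm X) where
  le := Le
  le_refl := Le.refl
  le_trans _ _ _ := Le.trans

theorem le_def {s t : Tm X} : s ≤ t ↔ Le s t := Iff.rfl

/-- The value of a term. -/
def eval {M : Type*} [Lattice M] (f : X → M) : Tm X → M
  | var x => f x
  | sup s t => s.eval f ⊔ t.eval f
  | inf s t => s.eval f ⊓ t.eval f

theorem eval_mono {M : Type*} [Lattice M] (f : X → M) {s t : Tm X} (h : Le s t) :
    s.eval f ≤ t.eval f := by
  induction h with
  | var x => exact le_rfl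
  | supL _ _ ih₁ ih₂ => exact sup_le ih₁ ih₂
  | supR₁ _ ih => exact ih.trans le_sup_left
  | supR₂ _ ih => exact ih.trans le_sup_right
  | infR _ _ ih₁ ih₂ => exact le_inf ih₁ ih₂
  | infL₁ _ ih => exact inf_le_left.trans ih
  | infL₂ _ ih => exact inf_le_right.trans ih

end Tm

/-- The free lattice on `X`. -/
def FLat (X : Type u) : Type u := Antisymmetrization (Tm X) (· ≤ ·)

namespace FLat

variable {X : Type u}

instance : PartialOrder (FLat X) := inferInstanceAs (PartialOrder (Antisymmetrization _ _))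

/-- The class of a term. -/
def mk (t : Tm X) : FLat X := toAntisymmetrization (· ≤ ·) t

theorem mk_le_mk {s t : Tm X} : mk s ≤ mk t ↔ Tm.Le s t := Iff.rfl

theorem mk_surjective : Function.Surjective (mk : Tm X → FLat X) := Quotient.mk_surjective

@[elab_as_elim]
theorem ind {P : FLat X → Prop} (h : ∀ t, P (mk t)) (w : FLat X) : P w := by
  obtain ⟨t, rfl⟩ := mk_surjective w; exact h t

theorem mk_eq_mk {s t : Tm X} : mk s = mk t ↔ Tm.Le s t ∧ Tm.Le t s := by
  rw [le_antisymm_iff, mk_le_mk, mk_le_mk]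

/-- Join. -/
def sup' : FLat X → FLat X → FLat X :=
  Quotient.map₂ Tm.sup fun _ _ h _ _ h' =>
    ⟨Tm.Le.supL (.supR₁ h.1) (.supR₂ h'.1), Tm.Le.supL (.supR₁ h.2) (.supR₂ h'.2)⟩

/-- Meet. -/
def inf' : FLat X → FLat X → FLat X :=
  Quotient.map₂ Tm.inf fun _ _ h _ _ h' =>
    ⟨Tm.Le.infR (.infL₁ h.1) (.infL₂ h'.1), Tm.Le.infR (.infL₁ h.2) (.infL₂ h'.2)⟩

instance : Lattice (FLat X) :=
  { (inferInstance : PartialOrder (FLat X)) with
    sup := sup'
    inf := inf'
    le_sup_left := fun a b => by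
      induction a using ind; induction b using ind
      exact Tm.Le.supR₁ (Tm.Le.refl _)
    le_sup_right := fun a b => by
      induction a using ind; induction b using ind
      exact Tm.Le.supR₂ (Tm.Le.refl _)
    sup_le := fun a b c => by
      induction a using ind; induction b using ind; induction c using ind
      exact Tm.Le.supL
    inf_le_left := fun a b => by
      induction a using ind; induction b using ind
      exact Tm.Le.infL₁ (Tm.Le.refl _)
    inf_le_right := fun a b => by
      induction a using ind; induction b using ind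
      exact Tm.Le.infL₂ (Tm.Le.refl _)
    le_inf := fun a b c => by
      induction a using ind; induction b using ind; induction c using ind
      exact Tm.Le.infR }

theorem mk_sup (s t : Tm X) : mk (s.sup t) = mk s ⊔ mk t := rfl
theorem mk_inf (s t : Tm X) : mk (s.inf t) = mk s ⊓ mk t := rfl

/-- The generators. -/
def of (x : X) : FLat X := mk (.var x)

/-- The universal property. -/
def lift {M : Type*} [Lattice M] (f : X → M) : LatticeHom (FLat X) M where
  toFun := Quotient.lift (Tm.eval f) fun _ _ h =>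
    le_antisymm (Tm.eval_mono f h.1) (Tm.eval_mono f h.2)
  map_sup' a b := by
    induction a using ind; induction b using ind
    rfl
  map_inf' a b := by
    induction a using ind; induction b using ind
    rfl

@[simp]
theorem lift_of {M : Type*} [Lattice M] (f : X → M) (x : X) : lift f (of x) = f x := rfl

theorem hom_ext {M : Type*} [Lattice M] {g h : LatticeHom (FLat X) M}
    (H : ∀ x, g (of x) = h (of x)) : g = h := by
  ext w
  induction w using ind with
  | h t =>
    induction t with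
    | var x => exact H x
    | sup s t hs ht => rw [mk_sup, map_sup, map_sup, hs, ht]
    | inf s t hs ht => rw [mk_inf, map_inf, map_inf, hs, ht]

theorem isFree (X : Type u) : IsFree (of : X → FLat X) := by
  intro M _ f
  exact ⟨lift f, fun x => lift_of f x, fun h H => hom_ext fun x => by rw [H, lift_of]⟩

theorem whitman (X : Type u) : Whitman (FLat X) := by
  intro a b c d
  induction a using ind with
  | h a =>
  induction b using ind with
  | h b =>
  induction c using ind with
  | h c =>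
  induction d using ind with
  | h d =>
  intro h
  rw [← mk_sup, ← mk_inf, mk_le_mk] at h
  rw [← mk_sup, ← mk_inf, mk_le_mk, mk_le_mk, mk_le_mk, mk_le_mk]
  cases h with
  | supR₁ h => exact Or.inr (Or.inr (Or.inl h))
  | supR₂ h => exact Or.inr (Or.inr (Or.inr h))
  | infL₁ h => exact Or.inl h
  | infL₂ h => exact Or.inr (Or.inl h)

theorem of_le_sup {x : X} {a b : FLat X} (h : of x ≤ a ⊔ b) : of x ≤ a ∨ of x ≤ b := by
  induction a using ind with
  | h a =>
  induction b using ind with
  | h b =>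
  rw [of, ← mk_sup, mk_le_mk] at h
  cases h with
  | supR₁ h => exact Or.inl h
  | supR₂ h => exact Or.inr h

theorem inf_le_of {x : X} {a b : FLat X} (h : a ⊓ b ≤ of x) : a ≤ of x ∨ b ≤ of x := by
  induction a using ind with
  | h a =>
  induction b using ind with
  | h b =>
  rw [of, ← mk_inf, mk_le_mk] at h
  cases h with
  | infL₁ h => exact Or.inl h
  | infL₂ h => exact Or.inr h

theorem induction_on {P : FLat X → Prop} (w : FLat X) (h₀ : ∀ x, P (of x))
    (h₁ : ∀ a b, P a → P b → P (a ⊔ b)) (h₂ : ∀ a b, P a → P b → P (a ⊓ b)) : P w := by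
  induction w using ind with
  | h t =>
    induction t with
    | var x => exact h₀ x
    | sup s t hs ht => exact h₁ _ _ hs ht
    | inf s t hs ht => exact h₂ _ _ hs ht

end FLat

/-- A free lattice is isomorphic to the one built from terms. -/
theorem embedsInFree_iff {L : Type u} [Lattice L] :
    EmbedsInFree L ↔ ∃ X : Type u, ∃ g : LatticeHom L (FLat X), Function.Injective g := by
  constructor
  · rintro ⟨X, F, _, i, hi, g, hg⟩
    obtain ⟨a, ha, _⟩ := hi (FLat X) FLat.of
    obtain ⟨c, _, hc⟩ := hi F i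
    refine ⟨X, a.comp g, ?_⟩
    have h : (FLat.lift i).comp a = LatticeHom.id F := by
      rw [hc ((FLat.lift i).comp a) (fun x => by simp [ha]), ← hc (LatticeHom.id F) (fun x => rfl)]
    intro x y hxy
    apply hg
    have := congrArg (FLat.lift i) hxy
    have e : ∀ z, FLat.lift i (a z) = z := fun z => DFunLike.congr_fun h z
    simpa [e] using this
  · rintro ⟨X, g, hg⟩
    exact ⟨X, FLat X, inferInstance, FLat.of, FLat.isFree X, g, hg⟩

end Pool.Agent.H41.FL
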