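import Mathlib
import Pool.Agent.H41.FL.Term
import Pool.Agent.H41.FL.Core

/-!
# From the core construction to an embedding into a free lattice
-/

namespace Pool.Agent.H41.FL

universe u

/-- Adjoining a top and a bottom. -/
abbrev Bd (α : Type u) : Type u := WithTop (WithBot α)

/-- The inclusion. -/
def Bd.c {α : Type u} (a : α) : Bd α := ((a : WithBot α) : WithTop (WithBot α))

theorem Bd.c_inj {α : Type u} {a b : α} : Bd.c a = Bd.c b ↔ a = b := by
  simp [Bd.c]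

theorem Bd.c_le {α : Type u} [Lattice α] {a b : α} : Bd.c a ≤ Bd.c b ↔ a ≤ b := by
  simp [Bd.c]

theorem Bd.c_sup {α : Type u} [Lattice α] (a b : α) : Bd.c (a ⊔ b) = Bd.c a ⊔ Bd.c b := rfl

theorem Bd.c_inf {α : Type u} [Lattice α] (a b : α) : Bd.c (a ⊓ b) = Bd.c a ⊓ Bd.c b := rfl

theorem Bd.cases {α : Type u} [Lattice α] (w : Bd α) : w = ⊤ ∨ w = ⊥ ∨ ∃ a, w = Bd.c a := by
  induction w using WithTop.recTopCoe with
  | top => exact Or.inl rfl
  | coe w =>
    induction w using WithBot.recBotCoe with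
    | bot => exact Or.inr (Or.inl rfl)
    | coe a => exact Or.inr (Or.inr ⟨a, rfl⟩)

theorem Bd.c_ne_top {α : Type u} [Lattice α] (a : α) : Bd.c a ≠ ⊤ := WithTop.coe_ne_top

theorem Bd.c_ne_bot {α : Type u} [Lattice α] (a : α) : Bd.c a ≠ ⊥ := by
  intro h
  have : ((a : WithBot α) : WithTop (WithBot α)) = ((⊥ : WithBot α) : WithTop (WithBot α)) := h
  exact WithBot.coe_ne_bot (WithTop.coe_injective this)

theorem embeds_of_core {L Q M : Type u} [Lattice L] [Preorder Q] [Lattice M] (K : Core L Q)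
    (v : Q → M) (hv : Monotone v)
    (hc : ∀ q, ∀ 𝒢 ∈ K.C q, Bd.c (v q) ≤ 𝒢.sup fun g => Bd.c (v g))
    (hm : ∀ q, ∀ 𝒥 ∈ K.Cd q, (𝒥.inf fun g => Bd.c (v g)) ≤ Bd.c (v q))
    (hinj : ∀ a b, v (K.el a) = v (K.el b) → a = b) : EmbedsInFree L := by
  rw [embedsInFree_iff]
  refine ⟨Q, ?_⟩
  obtain ⟨G, h1, h2, h3⟩ := K.main (B := Bd (FLat Q)) (fun q => Bd.c (FLat.of q))
  have h4 := h3 (Bd M) (FLat.lift v).withTopWithBot (fun q => Bd.c (v q))
    (fun q => by simp [Bd.c]) (fun p q h => Bd.c_le.2 (hv h)) hc hm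
  have h5 : ∀ a, ∃ w, G (K.el a) = Bd.c w := by
    intro a
    have := h4 (K.el a)
    rcases Bd.cases (G (K.el a)) with h | h | h
    · rw [h, map_top] at this
      exact absurd this.symm (Bd.c_ne_top _)
    · rw [h, map_bot] at this
      exact absurd this.symm (Bd.c_ne_bot _)
    · exact h
  choose g hg using h5
  refine ⟨⟨⟨g, ?_⟩, ?_⟩, ?_⟩
  · intro a b
    apply Bd.c_inj.1
    rw [← hg, Bd.c_sup, ← hg, ← hg, h1]
  · intro a b
    apply Bd.c_inj.1
    show Bd.c (g (a ⊓ b)) = Bd.c (g a ⊓ g b)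
    rw [← hg, Bd.c_inf, ← hg, ← hg, h2]
  · intro a b (hab : g a = g b)
    apply hinj
    apply Bd.c_inj.1
    have e1 := h4 (K.el a)
    have e2 := h4 (K.el b)
    rw [hg] at e1 e2
    rw [← e1, ← e2, hab]

end Pool.Agent.H41.FL
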