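import Mathlib
import Pool.Agent.H41.FL.Term

/-!
# Necessity: filters induced by elements of a free lattice have finite rank
-/

namespace Pool.Agent.H41.FL

universe u v

variable {L : Type u} {F : Type v} [Lattice L] [Lattice F]

theorem Whitman.dual {L : Type u} [Lattice L] (h : Whitman L) : Whitman Lᵒᵈ := by
  intro a b c d H
  have := h (OrderDual.ofDual c) (OrderDual.ofDual d) (OrderDual.ofDual a) (OrderDual.ofDual b) H
  rcases this with h | h | h | h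
  · exact Or.inr (Or.inr (Or.inl h))
  · exact Or.inr (Or.inr (Or.inr h))
  · exact Or.inl h
  · exact Or.inr (Or.inl h)

/-- A finite system of covers of the filter of all `b` with `w ≤ g b`. -/
def HasCov (g : LatticeHom L F) (w : F) : Prop :=
  ∃ 𝒞 : Set (Set (Set L)), 𝒞.Finite ∧ (∀ 𝒢 ∈ 𝒞, 𝒢.Finite) ∧ (∀ 𝒢 ∈ 𝒞, 𝒢.Nonempty) ∧
    (∀ 𝒢 ∈ 𝒞, ∀ G ∈ 𝒢, FinRank G) ∧ (∀ 𝒢 ∈ 𝒞, ∀ b, (∀ G ∈ 𝒢, b ∈ G) → w ≤ g b) ∧
    ∀ (A : Finset L) (hA : A.Nonempty), w ≤ g (A.sup' hA id) →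
      (∃ a ∈ A, w ≤ g a) ∨ ∃ 𝒢 ∈ 𝒞, ∀ G ∈ 𝒢, ∃ a ∈ A, a ∈ G

theorem HasCov.finRank {g : LatticeHom L F} {w : F} (h : HasCov g w) (h' : ∃ b, w ≤ g b) :
    FinRank {b | w ≤ g b} := by
  obtain ⟨𝒞, h1, h2, h3, h4, h5, h6⟩ := h
  refine FinRank.mk _ 𝒞 ⟨h', ?_, ?_⟩ h1 h2 h3 h4 h5 h6
  · intro a b (ha : w ≤ g a) hab
    exact ha.trans (OrderHomClass.mono g hab)
  · intro a b (ha : w ≤ g a) (hb : w ≤ g b)
    show w ≤ g (a ⊓ b)
    rw [map_inf]; exact le_inf ha hb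

theorem hasCov_of_prime {g : LatticeHom L F} {w : F} (h : ∀ a b, w ≤ a ⊔ b → w ≤ a ∨ w ≤ b) :
    HasCov g w := by
  refine ⟨∅, Set.finite_empty, by simp, by simp, by simp, by simp, ?_⟩
  intro A hA
  induction hA using Finset.Nonempty.cons_induction with
  | singleton a => intro H; left; exact ⟨a, by simp, by simpa using H⟩
  | cons a s ha hs ih =>
    intro H
    rw [Finset.sup'_cons hs, map_sup] at H
    rcases h _ _ H with H | H
    · exact Or.inl ⟨a, by simp, H⟩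
    · rcases ih H with ⟨b, hb, H⟩ | ⟨_, h, _⟩
      · exact Or.inl ⟨b, by simp [hb], H⟩
      · exact absurd h (Set.notMem_empty _)

theorem whitman_fin (hW : Whitman F) (g : LatticeHom L F) {a b : F} (A : Finset L)
    (hA : A.Nonempty) (h : a ⊓ b ≤ g (A.sup' hA id)) :
    a ≤ g (A.sup' hA id) ∨ b ≤ g (A.sup' hA id) ∨ ∃ c ∈ A, a ⊓ b ≤ g c := by
  induction hA using Finset.Nonempty.cons_induction with
  | singleton c => exact Or.inr (Or.inr ⟨c, by simp, by simpa using h⟩)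
  | cons c s hc hs ih =>
    rw [Finset.sup'_cons hs, map_sup] at h
    rw [Finset.sup'_cons hs, map_sup]
    rcases hW _ _ _ _ h with h | h | h | h
    · exact Or.inl h
    · exact Or.inr (Or.inl h)
    · exact Or.inr (Or.inr ⟨c, by simp, h⟩)
    · rcases ih h with h | h | ⟨d, hd, h⟩
      · exact Or.inl (h.trans le_sup_right)
      · exact Or.inr (Or.inl (h.trans le_sup_right))
      · exact Or.inr (Or.inr ⟨d, by simp [hd], h⟩)

theorem HasCov.inf (hW : Whitman F) {g : LatticeHom L F} {a b : F} (ha : HasCov g a)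
    (hb : HasCov g b) : HasCov g (a ⊓ b) := by
  obtain ⟨𝒞, h1, h2, h3, h4, h5, h6⟩ := ha
  obtain ⟨𝒞', h1', h2', h3', h4', h5', h6'⟩ := hb
  refine ⟨𝒞 ∪ 𝒞', h1.union h1', ?_, ?_, ?_, ?_, ?_⟩
  · rintro 𝒢 (h | h)
    exacts [h2 _ h, h2' _ h]
  · rintro 𝒢 (h | h)
    exacts [h3 _ h, h3' _ h]
  · rintro 𝒢 (h | h)
    exacts [h4 _ h, h4' _ h]
  · rintro 𝒢 (h | h) c hc
    exacts [inf_le_left.trans (h5 _ h c hc), inf_le_right.trans (h5' _ h c hc)]
  · intro A hA H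
    rcases whitman_fin hW g A hA H with H | H | H
    · rcases h6 A hA H with ⟨c, hc, H⟩ | ⟨𝒢, h, H⟩
      · exact Or.inl ⟨c, hc, inf_le_left.trans H⟩
      · exact Or.inr ⟨𝒢, Or.inl h, H⟩
    · rcases h6' A hA H with ⟨c, hc, H⟩ | ⟨𝒢, h, H⟩
      · exact Or.inl ⟨c, hc, inf_le_right.trans H⟩
      · exact Or.inr ⟨𝒢, Or.inr h, H⟩
    · exact Or.inl H

theorem HasCov.sup {g : LatticeHom L F} {a b : F} (ha : HasCov g a)
    (hb : HasCov g b) : HasCov g (a ⊔ b) := by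
  by_cases hne : (∃ c, a ≤ g c) ∧ ∃ c, b ≤ g c
  swap
  · refine ⟨∅, Set.finite_empty, by simp, by simp, by simp, by simp, ?_⟩
    intro A hA H
    exact absurd ⟨⟨_, le_sup_left.trans H⟩, ⟨_, le_sup_right.trans H⟩⟩ hne
  have ra := ha.finRank hne.1
  have rb := hb.finRank hne.2
  obtain ⟨𝒞, h1, h2, h3, h4, h5, h6⟩ := ha
  obtain ⟨𝒞', h1', h2', h3', h4', h5', h6'⟩ := hb
  refine ⟨Set.image2 (· ∪ ·) (insert {{c | a ≤ g c}} 𝒞) (insert {{c | b ≤ g c}} 𝒞'),
    (h1.insert _).image2 _ (h1'.insert _), ?_, ?_, ?_, ?_, ?_⟩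
  · rintro _ ⟨𝒢, hg, 𝒢', hg', rfl⟩
    refine Set.Finite.union ?_ ?_
    · rcases hg with rfl | hg
      exacts [Set.finite_singleton _, h2 _ hg]
    · rcases hg' with rfl | hg'
      exacts [Set.finite_singleton _, h2' _ hg']
  · rintro _ ⟨𝒢, hg, 𝒢', hg', rfl⟩
    refine Set.Nonempty.inl ?_
    rcases hg with rfl | hg
    exacts [Set.singleton_nonempty _, h3 _ hg]
  · rintro _ ⟨𝒢, hg, 𝒢', hg', rfl⟩ G (h | h)
    · rcases hg with rfl | hg
      · rw [Set.mem_singleton_iff.1 h]; exact ra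
      · exact h4 _ hg _ h
    · rcases hg' with rfl | hg'
      · rw [Set.mem_singleton_iff.1 h]; exact rb
      · exact h4' _ hg' _ h
  · rintro _ ⟨𝒢, hg, 𝒢', hg', rfl⟩ c hc
    refine sup_le ?_ ?_
    · rcases hg with rfl | hg
      · exact hc _ (Or.inl rfl)
      · exact h5 _ hg c fun G hG => hc G (Or.inl hG)
    · rcases hg' with rfl | hg'
      · exact hc _ (Or.inr rfl)
      · exact h5' _ hg' c fun G hG => hc G (Or.inr hG)
  · intro A hA H
    right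
    have e1 : ∃ 𝒢 ∈ insert {{c | a ≤ g c}} 𝒞, ∀ G ∈ 𝒢, ∃ a ∈ A, a ∈ G := by
      rcases h6 A hA (le_sup_left.trans H) with ⟨c, hc, H⟩ | ⟨𝒢, h, H⟩
      · exact ⟨_, Or.inl rfl, fun G hG => ⟨c, hc, by rw [Set.mem_singleton_iff.1 hG]; exact H⟩⟩
      · exact ⟨𝒢, Or.inr h, H⟩
    have e2 : ∃ 𝒢 ∈ insert {{c | b ≤ g c}} 𝒞', ∀ G ∈ 𝒢, ∃ a ∈ A, a ∈ G := by
      rcases h6' A hA (le_sup_right.trans H) with ⟨c, hc, H⟩ | ⟨𝒢, h, H⟩
      · exact ⟨_, Or.inl rfl, fun G hG => ⟨c, hc, by rw [Set.mem_singleton_iff.1 hG]; exact H⟩⟩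
      · exact ⟨𝒢, Or.inr h, H⟩
    obtain ⟨𝒢, hg, H1⟩ := e1
    obtain ⟨𝒢', hg', H2⟩ := e2
    refine ⟨𝒢 ∪ 𝒢', Set.mem_image2_of_mem hg hg', ?_⟩
    rintro G (h | h)
    exacts [H1 G h, H2 G h]

theorem le_iff_of_injective {g : LatticeHom L F} (hg : Function.Injective g) {a b : L} :
    g a ≤ g b ↔ a ≤ b := by
  constructor
  · intro h
    have : g (a ⊔ b) = g b := by rw [map_sup]; exact sup_eq_right.2 h
    exact sup_eq_right.1 (hg this)
  · intro h
    exact OrderHomClass.mono g h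

theorem finRank_Ici {g : LatticeHom L F} (hg : Function.Injective g) (h : ∀ w, HasCov g w)
    (a : L) : FinRank (Set.Ici a) := by
  have := (h (g a)).finRank ⟨a, le_rfl⟩
  have e : {b | g a ≤ g b} = Set.Ici a := by
    ext b
    exact le_iff_of_injective hg
  rwa [e] at this

theorem hasCov_FLat {X : Type v} (g : LatticeHom L (FLat X)) (w : FLat X) : HasCov g w := by
  induction w using FLat.induction_on with
  | h₀ x => exact hasCov_of_prime fun a b => FLat.of_le_sup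
  | h₁ a b ha hb => exact ha.sup hb
  | h₂ a b ha hb => exact ha.inf (FLat.whitman X) hb

theorem hasCov_FLat_dual {X : Type v} (g : LatticeHom L (FLat X)ᵒᵈ) (w : FLat X) :
    HasCov g (OrderDual.toDual w) := by
  induction w using FLat.induction_on with
  | h₀ x =>
    refine hasCov_of_prime fun a b h => ?_
    exact FLat.inf_le_of (a := OrderDual.ofDual a) (b := OrderDual.ofDual b) h
  | h₁ a b ha hb => exact ha.inf (FLat.whitman X).dual hb
  | h₂ a b ha hb => exact ha.sup hb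

/-- Necessity. -/
theorem necessity {L : Type u} [Lattice L] (h : EmbedsInFree L) :
    Whitman L ∧ (∀ a : L, FinRank (Set.Ici a)) ∧ ∀ a : Lᵒᵈ, FinRank (Set.Ici a) := by
  obtain ⟨X, g, hg⟩ := embedsInFree_iff.1 h
  refine ⟨?_, finRank_Ici hg (hasCov_FLat g), ?_⟩
  · intro a b c d H
    have := FLat.whitman X (g a) (g b) (g c) (g d)
    simp only [← map_inf, ← map_sup, le_iff_of_injective hg] at this
    exact this H
  · have hg' : Function.Injective (LatticeHom.dual g) := hg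
    exact finRank_Ici hg' fun w => hasCov_FLat_dual _ (OrderDual.ofDual w)

end Pool.Agent.H41.FL
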