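import Mathlib
import Pool.Agent.H41.FL.Embed
import Pool.Agent.H41.FL.Axioms
import Pool.Agent.H41.FL.Nec

/-!
# Countable sublattices of free lattices
-/

namespace Pool.Agent.H41.FL

universe u

theorem exists_rho {Q : Type*} (st rk : Q → ℕ) (hfin : ∀ n, {q | st q ≤ n}.Finite) :
    ∃ ρ : Q → ℕ, (∀ p q, st p < st q → ρ p < ρ q) ∧
      ∀ p q, st p = st q → rk p < rk q → ρ p < ρ q := by
  let R : Q → Q → Prop := fun p q => st p < st q ∨ (st p = st q ∧ rk p < rk q)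
  have hR : ∀ p q, R p q → {r | R r p}.ncard < {r | R r q}.ncard := by
    intro p q hpq
    refine Set.ncard_lt_ncard ?_ ?_
    · refine ⟨?_, ?_⟩
      · rintro r (h | h)
        · rcases hpq with h' | h'
          · exact Or.inl (by omega)
          · exact Or.inl (by omega)
        · rcases hpq with h' | h'
          · exact Or.inl (by omega)
          · exact Or.inr ⟨by omega, by omega⟩
      · intro hs
        have : R p p := hs hpq
        rcases this with h | h <;> omega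
    · refine (hfin (st q)).subset ?_
      rintro r (h | h)
      · exact h.le
      · exact h.1.le
  exact ⟨fun q => {r | R r q}.ncard, fun p q h => hR p q (Or.inl h),
    fun p q h h' => hR p q (Or.inr ⟨h, h'⟩)⟩

variable {L : Type u} [Lattice L]

namespace Nd

variable {K : FSys L} {I : ISys L} {e : L → ℕ}

theorem finite_st (he : Function.Injective e) (n : ℕ) :
    {q : Nd K I e | e q.lab ≤ n}.Finite := by
  classical
  have h1 : {a : L | e a ≤ n}.Finite := (Set.finite_Iic n).preimage he.injOn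
  refine (h1.biUnion (t := fun a => ({el a} : Set (Nd K I e)) ∪
    (Set.range fun G : {G // G ∈ K.W a} => (fl a G.1 G.2 : Nd K I e)) ∪
    (Set.range fun G : {G // G ∈ I.W a} => (il a G.1 G.2 : Nd K I e))) fun a _ => ?_).subset ?_
  · exact ((Set.finite_singleton _).union (Set.finite_range _)).union (Set.finite_range _)
  · intro q hq
    refine Set.mem_biUnion (x := q.lab) hq ?_
    cases q with
    | el a => exact Or.inl (Or.inl rfl)
    | fl a G h => exact Or.inl (Or.inr ⟨⟨G, h⟩, rfl⟩)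
    | il a G h => exact Or.inr ⟨⟨G, h⟩, rfl⟩

/-- Ranks for join covers. -/
noncomputable def rkC : Nd K I e → ℕ
  | el a => K.rk (Set.Ici a)
  | fl _ G _ => K.rk G
  | il a _ _ => (K.W a).sup K.rk + 1

/-- Ranks for meet covers. -/
noncomputable def rkD : Nd K I e → ℕ
  | el a => I.rk (Set.Iic a)
  | il _ G _ => I.rk G
  | fl a _ _ => (I.W a).sup I.rk + 1

theorem rkC_lt {q : Nd K I e} {𝒢 : Finset (Set L)} (h : 𝒢 ∈ q.cv) {G : Set L} (hG : G ∈ 𝒢) :
    K.rk G < q.rkC := by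
  cases q with
  | el a => exact K.rk_lt (K.mem a) h hG
  | fl a G' hG' => exact K.rk_lt hG' h hG
  | il a J hJ => exact Nat.lt_succ_of_le (Finset.le_sup (f := K.rk) (cv_sub h hG))

theorem rkD_lt {q : Nd K I e} {𝒢 : Finset (Set L)} (h : 𝒢 ∈ q.cvd) {G : Set L} (hG : G ∈ 𝒢) :
    I.rk G < q.rkD := by
  cases q with
  | el a => exact I.rk_lt (I.mem a) h hG
  | il a G' hG' => exact I.rk_lt hG' h hG
  | fl a J hJ => exact Nat.lt_succ_of_le (Finset.le_sup (f := I.rk) (cvd_sub h hG))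

open Classical in
/-- The join covers. -/
noncomputable def C (q : Nd K I e) : Finset (Finset (Nd K I e)) :=
  q.cv.image fun 𝒢 => 𝒢.image (mkF q.lab)

open Classical in
/-- The meet covers. -/
noncomputable def Cd (q : Nd K I e) : Finset (Finset (Nd K I e)) :=
  q.cvd.image fun 𝒢 => 𝒢.image (mkI q.lab)

theorem exists_core (he : Function.Injective e) (hW : Whitman L) :
    ∃ T : Core L (Nd K I e), T.el = el ∧ T.C = C ∧ T.Cd = Cd := by
  classical
  have hfin := finite_st (K := K) (I := I) he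
  obtain ⟨ρ, hρ1, hρ2⟩ := exists_rho (fun q : Nd K I e => e q.lab) rkC hfin
  obtain ⟨ρd, hρd1, hρd2⟩ := exists_rho (fun q : Nd K I e => e q.lab) rkD hfin
  have hlab : ∀ {q : Nd K I e} {G}, G ∈ K.W q.lab → (mkF q.lab G : Nd K I e).lab = q.lab :=
    fun {q G} h => by rw [mkF_eq h]; rfl
  have hlab' : ∀ {q : Nd K I e} {G}, G ∈ I.W q.lab → (mkI q.lab G : Nd K I e).lab = q.lab :=
    fun {q G} h => by rw [mkI_eq h]; rfl
  refine ⟨{
    st := fun q => e q.lab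
    S := fun q => (hfin (e q.lab)).toFinset.filter fun p => e p.lab = e q.lab ∧ p ≤ q
    D := fun q => (hfin (e q.lab)).toFinset.filter fun p => e p.lab < e q.lab ∧ p ≤ q
    U := fun q => (hfin (e q.lab)).toFinset.filter fun p => e p.lab < e q.lab ∧ q ≤ p
    hS := ?_
    hD := ?_
    hU := ?_
    C := C
    Cd := Cd
    ρ := ρ
    ρd := ρd
    ρ_st := fun {p q} h => hρ1 p q h
    ρ_C := ?_
    ρd_st := fun {p q} h => hρd1 p q h
    ρd_C := ?_
    A1 := ?_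
    A2 := ?_
    A3 := ?_
    el := el
    hel := fun {a b} h => el_le_el.2 h
    J2 := ?_
    M2 := ?_ }, rfl, rfl, rfl⟩
  · intro p q
    rw [Finset.mem_filter, Set.Finite.mem_toFinset]
    exact ⟨fun h => h.2, fun h => ⟨h.1.le, h⟩⟩
  · intro p q
    rw [Finset.mem_filter, Set.Finite.mem_toFinset]
    exact ⟨fun h => h.2, fun h => ⟨h.1.le, h⟩⟩
  · intro p q
    rw [Finset.mem_filter, Set.Finite.mem_toFinset]
    exact ⟨fun h => h.2, fun h => ⟨h.1.le, h⟩⟩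
  · intro q 𝒢' g h𝒢' hg
    obtain ⟨𝒢, h𝒢, rfl⟩ := Finset.mem_image.1 h𝒢'
    obtain ⟨G, hG, rfl⟩ := Finset.mem_image.1 hg
    refine hρ2 _ _ (by rw [hlab (cv_sub h𝒢 hG)]) ?_
    rw [mkF_eq (cv_sub h𝒢 hG)]
    exact rkC_lt h𝒢 hG
  · intro q 𝒢' g h𝒢' hg
    obtain ⟨𝒢, h𝒢, rfl⟩ := Finset.mem_image.1 h𝒢'
    obtain ⟨G, hG, rfl⟩ := Finset.mem_image.1 hg
    refine hρd2 _ _ (by rw [hlab' (cvd_sub h𝒢 hG)]) ?_
    rw [mkI_eq (cvd_sub h𝒢 hG)]
    exact rkD_lt h𝒢 hG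
  · intro p q hpq hst 𝒢' h𝒢'
    obtain ⟨𝒢, h𝒢, rfl⟩ := Finset.mem_image.1 h𝒢'
    rcases A1 he hpq hst h𝒢 with ⟨G, hG, h⟩ | ⟨𝒢'', h, H⟩ | h
    · exact Or.inl ⟨_, Finset.mem_image_of_mem _ hG, h⟩
    · refine Or.inr (Or.inl ⟨_, Finset.mem_image_of_mem _ h, ?_⟩)
      intro g' hg'
      obtain ⟨G', hG', rfl⟩ := Finset.mem_image.1 hg'
      obtain ⟨G, hG, h'⟩ := H G' hG'
      exact ⟨_, Finset.mem_image_of_mem _ hG, h'⟩
    · exact Or.inr (Or.inr h)
  · intro p q hpq hst 𝒥' h𝒥'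
    obtain ⟨𝒥, h𝒥, rfl⟩ := Finset.mem_image.1 h𝒥'
    rcases A2 he hpq hst h𝒥 with ⟨G, hG, h⟩ | ⟨𝒢'', h, H⟩ | h
    · exact Or.inl ⟨_, Finset.mem_image_of_mem _ hG, h⟩
    · refine Or.inr (Or.inl ⟨_, Finset.mem_image_of_mem _ h, ?_⟩)
      intro g' hg'
      obtain ⟨G', hG', rfl⟩ := Finset.mem_image.1 hg'
      obtain ⟨G, hG, h'⟩ := H G' hG'
      exact ⟨_, Finset.mem_image_of_mem _ hG, h'⟩
    · exact Or.inr (Or.inr h)
  · intro q 𝒥' h𝒥' 𝒢' h𝒢'
    obtain ⟨𝒥, h𝒥, rfl⟩ := Finset.mem_image.1 h𝒥'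
    obtain ⟨𝒢, h𝒢, rfl⟩ := Finset.mem_image.1 h𝒢'
    rcases A3 hW h𝒥 h𝒢 with ⟨J, hJ, h⟩ | ⟨G, hG, h⟩
    · refine Or.inl ⟨_, Finset.mem_image_of_mem _ hJ, ?_⟩
      rw [C, hlab' (cvd_sub h𝒥 hJ)]
      exact Finset.mem_image_of_mem _ h
    · refine Or.inr ⟨_, Finset.mem_image_of_mem _ hG, ?_⟩
      rw [Cd, hlab (cv_sub h𝒢 hG)]
      exact Finset.mem_image_of_mem _ h
  · intro a b c habc
    rcases K.virt (K.mem a) {Set.Ici b, Set.Ici c} (by simp)
      (by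
        intro G hG
        rcases Finset.mem_insert.1 hG with rfl | hG
        · exact isFilt_Ici b
        · rw [Finset.mem_singleton.1 hG]; exact isFilt_Ici c)
      (by
        intro x hx
        exact habc.trans (sup_le (hx (Set.Ici b) (by simp)) (hx (Set.Ici c) (by simp)))) with
        ⟨G, hG, h⟩ | ⟨𝒢, h𝒢, H⟩
    · rcases Finset.mem_insert.1 hG with rfl | hG
      · exact Or.inl (el_le_el.2 (h (le_refl b)))
      · rw [Finset.mem_singleton.1 hG] at h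
        exact Or.inr (Or.inl (el_le_el.2 (h (le_refl c))))
    · refine Or.inr (Or.inr ⟨_, Finset.mem_image_of_mem _ h𝒢, ?_⟩)
      intro g hg
      obtain ⟨G, hG, rfl⟩ := Finset.mem_image.1 hg
      obtain ⟨G', hG', hs⟩ := H G hG
      have hGW : G ∈ K.W (el a : Nd K I e).lab := K.sub (K.mem a) h𝒢 hG
      rw [mkF_eq hGW]
      rcases Finset.mem_insert.1 hG' with rfl | hG'
      · exact Or.inl (fl_le_el.2 (hs (le_refl b)))
      · rw [Finset.mem_singleton.1 hG'] at hs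
        exact Or.inr (fl_le_el.2 (hs (le_refl c)))
  · intro a b c habc
    rcases I.virt (I.mem a) {Set.Iic b, Set.Iic c} (by simp)
      (by
        intro G hG
        rcases Finset.mem_insert.1 hG with rfl | hG
        · exact isIdl_Iic b
        · rw [Finset.mem_singleton.1 hG]; exact isIdl_Iic c)
      (by
        intro x hx
        exact (le_inf (hx (Set.Iic b) (by simp)) (hx (Set.Iic c) (by simp))).trans habc) with
        ⟨G, hG, h⟩ | ⟨𝒢, h𝒢, H⟩
    · rcases Finset.mem_insert.1 hG with rfl | hG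
      · exact Or.inl (el_le_el.2 (h (le_refl b)))
      · rw [Finset.mem_singleton.1 hG] at h
        exact Or.inr (Or.inl (el_le_el.2 (h (le_refl c))))
    · refine Or.inr (Or.inr ⟨_, Finset.mem_image_of_mem _ h𝒢, ?_⟩)
      intro g hg
      obtain ⟨G, hG, rfl⟩ := Finset.mem_image.1 hg
      obtain ⟨G', hG', hs⟩ := H G hG
      have hGW : G ∈ I.W (el a : Nd K I e).lab := I.sub (I.mem a) h𝒢 hG
      rw [mkI_eq hGW]
      rcases Finset.mem_insert.1 hG' with rfl | hG'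
      · exact Or.inl (el_le_il.2 (hs (le_refl b)))
      · rw [Finset.mem_singleton.1 hG'] at hs
        exact Or.inr (el_le_il.2 (hs (le_refl c)))

end Nd

/-! ### The completion -/

/-- Filters, possibly empty. -/
structure PF (F : Set L) : Prop where
  up : ∀ a b, a ∈ F → a ≤ b → b ∈ F
  inf : ∀ a b, a ∈ F → b ∈ F → a ⊓ b ∈ F

theorem PF.inter {F G : Set L} (hF : PF F) (hG : PF G) : PF (F ∩ G) :=
  ⟨fun a b h h' => ⟨hF.up a b h.1 h', hG.up a b h.2 h'⟩,
    fun a b h h' => ⟨hF.inf a b h.1 h'.1, hG.inf a b h.2 h'.2⟩⟩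

theorem PF.univ : PF (Set.univ : Set L) := ⟨fun _ _ _ _ => trivial, fun _ _ _ _ => trivial⟩

/-- The ideals of the lattice of filters of `L`. -/
structure Cmp (L : Type u) [Lattice L] where
  s : Set (Set L)
  pf : ∀ F ∈ s, PF F
  univ : Set.univ ∈ s
  up : ∀ F ∈ s, ∀ G, PF G → F ⊆ G → G ∈ s
  inter : ∀ F ∈ s, ∀ G ∈ s, F ∩ G ∈ s

namespace Cmp

@[ext]
theorem ext' {S T : Cmp L} (h : S.s = T.s) : S = T := by
  cases S; cases T; congr

instance : PartialOrder (Cmp L) where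
  le S T := S.s ⊆ T.s
  le_refl S := subset_rfl
  le_trans S T U h h' := h.trans h'
  le_antisymm S T h h' := ext' (h.antisymm h')

instance : Lattice (Cmp L) where
  sup S T :=
    { s := {F | PF F ∧ ∃ A ∈ S.s, ∃ B ∈ T.s, A ∩ B ⊆ F}
      pf := fun F hF => hF.1
      univ := ⟨PF.univ, _, S.univ, _, T.univ, Set.subset_univ _⟩
      up := by
        rintro F ⟨_, A, hA, B, hB, h⟩ G hG hFG
        exact ⟨hG, A, hA, B, hB, h.trans hFG⟩
      inter := by
        rintro F ⟨hF, A, hA, B, hB, h⟩ G ⟨hG, A', hA', B', hB', h'⟩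
        refine ⟨hF.inter hG, A ∩ A', S.inter _ hA _ hA', B ∩ B', T.inter _ hB _ hB', ?_⟩
        rintro x ⟨⟨h1, h2⟩, h3, h4⟩
        exact ⟨h ⟨h1, h3⟩, h' ⟨h2, h4⟩⟩ }
  inf S T :=
    { s := S.s ∩ T.s
      pf := fun F hF => S.pf F hF.1
      univ := ⟨S.univ, T.univ⟩
      up := fun F hF G hG h => ⟨S.up F hF.1 G hG h, T.up F hF.2 G hG h⟩
      inter := fun F hF G hG => ⟨S.inter F hF.1 G hG.1, T.inter F hF.2 G hG.2⟩ }
  le_sup_left S T F hF := ⟨S.pf F hF, F, hF, _, T.univ, Set.inter_subset_left⟩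
  le_sup_right S T F hF := ⟨T.pf F hF, _, S.univ, F, hF, Set.inter_subset_right⟩
  sup_le S T U h h' := by
    rintro F ⟨hF, A, hA, B, hB, hs⟩
    exact U.up _ (U.inter _ (h hA) _ (h' hB)) F hF hs
  inf_le_left S T := Set.inter_subset_left
  inf_le_right S T := Set.inter_subset_right
  le_inf S T U h h' := Set.subset_inter h h'

theorem le_def {S T : Cmp L} : S ≤ T ↔ S.s ⊆ T.s := Iff.rfl

theorem bInter_mem (T : Cmp L) (𝒢 : Finset (Set L)) (h : ∀ G ∈ 𝒢, G ∈ T.s) :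
    {b | ∀ G ∈ 𝒢, b ∈ G} ∈ T.s := by
  classical
  induction 𝒢 using Finset.induction_on with
  | empty =>
    have : {b : L | ∀ G ∈ (∅ : Finset (Set L)), b ∈ G} = Set.univ := by ext; simp
    rw [this]; exact T.univ
  | insert G 𝒢 _ ih =>
    have e : {b | ∀ G' ∈ insert G 𝒢, b ∈ G'} = G ∩ {b | ∀ G ∈ 𝒢, b ∈ G} := by
      ext b; simp
    rw [e]
    exact T.inter _ (h G (by simp)) _ (ih fun G hG => h G (by simp [hG]))

end Cmp

namespace Nd

variable {K : FSys L} {I : ISys L} {e : L → ℕ}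

/-- The value of a node in the completion. -/
def val : Nd K I e → Cmp L
  | el a =>
    { s := {F | PF F ∧ a ∈ F}
      pf := fun F h => h.1
      univ := ⟨PF.univ, trivial⟩
      up := fun F hF G hG h => ⟨hG, h hF.2⟩
      inter := fun F hF G hG => ⟨hF.1.inter hG.1, hF.2, hG.2⟩ }
  | fl _ G _ =>
    { s := {F | PF F ∧ G ⊆ F}
      pf := fun F h => h.1
      univ := ⟨PF.univ, Set.subset_univ _⟩
      up := fun F hF G hG h => ⟨hG, hF.2.trans h⟩
      inter := fun F hF G hG => ⟨hF.1.inter hG.1, Set.subset_inter hF.2 hG.2⟩ }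
  | il _ J hJ =>
    { s := {F | PF F ∧ ∃ j ∈ J, j ∈ F}
      pf := fun F h => h.1
      univ := by
        obtain ⟨j, hj⟩ := (I.idl hJ).nonempty
        exact ⟨PF.univ, j, hj, trivial⟩
      up := fun F hF G hG h => ⟨hG, hF.2.imp fun j hj => ⟨hj.1, h hj.2⟩⟩
      inter := by
        rintro F ⟨hF, i, hi, hi'⟩ G ⟨hG, j, hj, hj'⟩
        exact ⟨hF.inter hG, i ⊔ j, (I.idl hJ).sup _ _ hi hj, hF.up _ _ hi' le_sup_left,
          hG.up _ _ hj' le_sup_right⟩ }

/-- If a filter belongs to the value, it contains everything above the node. -/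
theorem val_up {x : Nd K I e} {F : Set L} (hF : F ∈ x.val.s) {b : L} (hb : b ∈ x.Up) : b ∈ F := by
  cases x with
  | el a => exact hF.1.up _ _ hF.2 hb
  | fl a G h => exact hF.2 hb
  | il a J h =>
    obtain ⟨hF, j, hj, hj'⟩ := hF
    obtain ⟨c, h1, h2, h3⟩ := hb
    exact hF.up _ _ hj' ((h2 j hj).trans h3)

theorem mem_val {x : Nd K I e} {F : Set L} (hF : PF F) {b : L} (hb : b ∈ x.Dn) (hbF : b ∈ F) :
    F ∈ x.val.s := by
  cases x with
  | el a => exact ⟨hF, hF.up _ _ hbF hb⟩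
  | il a G h => exact ⟨hF, b, hb, hbF⟩
  | fl a J h =>
    obtain ⟨c, h1, h2, h3⟩ := hb
    exact ⟨hF, fun g hg => hF.up _ _ hbF (h3.trans (h2 g hg))⟩

theorem val_mono : Monotone (val : Nd K I e → Cmp L) := by
  rintro x y (h | ⟨c, h1, h2⟩)
  · cases x <;> cases y <;> first | exact absurd h id | skip
    · rintro F ⟨h1, h2⟩
      exact ⟨h1, h.2.trans h2⟩
    · rintro F ⟨h1, j, hj, hj'⟩
      exact ⟨h1, j, h.2 hj, hj'⟩
  · intro F hF
    exact mem_val (x.val.pf F hF) h2 (val_up hF h1)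

theorem val_el_inj {a b : L} (h : (el a : Nd K I e).val = (el b : Nd K I e).val) : a = b := by
  have hp : ∀ c : L, PF (Set.Ici c) := fun c => ⟨(isFilt_Ici c).up, (isFilt_Ici c).inf⟩
  have h1 : Set.Ici a ∈ (el b : Nd K I e).val.s := by
    rw [← h]; exact ⟨hp a, le_refl a⟩
  have h2 : Set.Ici b ∈ (el a : Nd K I e).val.s := by
    rw [h]; exact ⟨hp b, le_refl b⟩
  exact le_antisymm h1.2 h2.2

theorem val_C (q : Nd K I e) : ∀ 𝒢 ∈ q.C, Bd.c q.val ≤ 𝒢.sup fun g => Bd.c g.val := by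
  classical
  intro 𝒢' h𝒢'
  obtain ⟨𝒢, h𝒢, rfl⟩ := Finset.mem_image.1 h𝒢'
  rcases Bd.cases ((𝒢.image (mkF q.lab)).sup fun g : Nd K I e => Bd.c g.val) with h | h | ⟨T, h⟩
  · rw [h]; exact le_top
  · obtain ⟨G, hG⟩ := cv_ne h𝒢
    have := Finset.le_sup (f := fun g : Nd K I e => Bd.c g.val)
      (Finset.mem_image_of_mem (mkF q.lab) hG)
    rw [h] at this
    exact absurd (le_bot_iff.1 this) (Bd.c_ne_bot _)
  · rw [h, Bd.c_le]
    have hG : ∀ G ∈ 𝒢, G ∈ T.s := by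
      intro G hG
      have := Finset.le_sup (f := fun g : Nd K I e => Bd.c g.val)
        (Finset.mem_image_of_mem (mkF q.lab) hG)
      rw [h, Bd.c_le, mkF_eq (cv_sub h𝒢 hG)] at this
      have hf := K.filt (cv_sub h𝒢 hG)
      exact this ⟨⟨hf.up, hf.inf⟩, subset_rfl⟩
    have hT := T.bInter_mem 𝒢 hG
    intro F hF
    refine T.up _ hT F (q.val.pf F hF) ?_
    intro b hb
    cases q with
    | el a => exact hF.1.up _ _ hF.2 (K.cover (K.mem a) h𝒢 b hb)
    | fl a G hG => exact hF.2 (K.cover hG h𝒢 b hb)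
    | il a J hJ =>
      obtain ⟨hF, j, hj, hj'⟩ := hF
      exact hF.up _ _ hj' (cv_spec h𝒢 hb hj)

theorem val_Cd (q : Nd K I e) : ∀ 𝒥 ∈ q.Cd, (𝒥.inf fun g => Bd.c g.val) ≤ Bd.c q.val := by
  classical
  intro 𝒥' h𝒥'
  obtain ⟨𝒥, h𝒥, rfl⟩ := Finset.mem_image.1 h𝒥'
  obtain ⟨J₀, hJ₀⟩ := cvd_ne h𝒥
  rcases Bd.cases ((𝒥.image (mkI q.lab)).inf fun g : Nd K I e => Bd.c g.val) with h | h | ⟨T, h⟩
  · have := Finset.inf_le (f := fun g : Nd K I e => Bd.c g.val)
      (Finset.mem_image_of_mem (mkI q.lab) hJ₀)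
    rw [h] at this
    exact absurd (top_le_iff.1 this) (Bd.c_ne_top _)
  · rw [h]; exact bot_le
  · rw [h, Bd.c_le]
    intro F hF
    have hpf := T.pf F hF
    have hJ : ∀ J ∈ 𝒥, ∃ j ∈ J, j ∈ F := by
      intro J hJ
      have := Finset.inf_le (f := fun g : Nd K I e => Bd.c g.val)
        (Finset.mem_image_of_mem (mkI q.lab) hJ)
      rw [h, Bd.c_le, mkI_eq (cvd_sub h𝒥 hJ)] at this
      exact (this hF).2
    have : Nonempty L := ⟨q.lab⟩
    choose! y hy hyF using hJ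
    have h1 : 𝒥.inf' ⟨J₀, hJ₀⟩ y ∈ F := inf'_mem hpf.inf _ _ _ hyF
    have h2 : ∀ J ∈ 𝒥, 𝒥.inf' ⟨J₀, hJ₀⟩ y ∈ J := fun J hJ =>
      (I.idl (cvd_sub h𝒥 hJ)).dn _ _ (hy J hJ) (Finset.inf'_le y hJ)
    cases q with
    | el a => exact ⟨hpf, hpf.up _ _ h1 (I.cover (I.mem a) h𝒥 _ h2)⟩
    | il a J hJ => exact ⟨hpf, _, I.cover hJ h𝒥 _ h2, h1⟩
    | fl a G hG => exact ⟨hpf, fun g hg => hpf.up _ _ h1 (cvd_spec h𝒥 h2 hg)⟩

end Nd

/-- Sufficiency for countable lattices. -/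
theorem sufficiency {L : Type u} [Lattice L] [Countable L] (hW : Whitman L)
    (h1 : ∀ a : L, FinRank (Set.Ici a)) (h2 : ∀ a : Lᵒᵈ, FinRank (Set.Ici a)) :
    EmbedsInFree L := by
  obtain ⟨K⟩ := exists_fsys h1
  obtain ⟨K'⟩ := exists_fsys h2
  obtain ⟨e, he⟩ := exists_injective_nat L
  obtain ⟨T, hT1, hT2, hT3⟩ := Nd.exists_core (K := K) (I := ISys.ofDual K') he hW
  refine embeds_of_core T Nd.val Nd.val_mono ?_ ?_ ?_
  · rw [hT2]; exact Nd.val_C
  · rw [hT3]; exact Nd.val_Cd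
  · rw [hT1]; exact fun a b h => Nd.val_el_inj h

/-- The characterization of countable sublattices of free lattices. -/
theorem main {L : Type u} [Lattice L] [Countable L] :
    EmbedsInFree L ↔
      Whitman L ∧ (∀ a : L, FinRank (Set.Ici a)) ∧ ∀ a : Lᵒᵈ, FinRank (Set.Ici a) :=
  ⟨necessity, fun h => sufficiency h.1 h.2.1 h.2.2⟩

end Pool.Agent.H41.FL
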